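import Mathlib
import Pool.Agent.Shared.BernoulliOne

/-!
Universality of the Stickelberger distribution among odd, Frobenius invariant distributions
that kill the pure classes.
-/

namespace Pool.Agent.Lib.MP_60ec62_ag

open Finset

/-- odd distributions of level `m`, invariant under `p`, that kill the pure classes. -/
structure IsDist (m p : ℕ) [NeZero m] {M : Type*} [AddCommGroup M] (E : ZMod m → M) : Prop where
  neg : ∀ x, E (-x) = -E x
  frob : ∀ x, E (p * x) = E x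
  pure : ∀ x, (∃ j : ℕ, (p : ZMod m) ^ j * x = -x) → E x = 0
  hd : ∀ l : ℕ, l.Prime → l ∣ m → ∀ x, (l : ZMod m) * x ≠ 0 →
    ∑ y with (l : ZMod m) * y = l * x, E y = E (l * x)

section step1

variable {m p : ℕ} [NeZero m] {M : Type*} [AddCommGroup M] {E : ZMod m → M}

theorem step1a (hE : IsDist m p E) (n : ℕ) (hnm : n ∣ m)
    (hn : ∀ l d : ℕ, l.Prime → l ∣ n → d ∣ n → ¬ l ∣ d → ∃ j, d ∣ p ^ j + 1)
    (T : Submodule ℤ M) (hT : ∀ u, addOrderOf u = n → E u ∈ T) (x : ZMod m)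
    (hx : addOrderOf x ∣ n) : E x ∈ T := by
  have hn0 : 0 < n := Nat.pos_of_dvd_of_pos hnm (NeZero.pos m)
  induction hk : n - addOrderOf x using Nat.strong_induction_on generalizing x with
  | _ k ih =>
  obtain ⟨e, he⟩ := hx
  rcases eq_or_ne e 1 with rfl | he1
  · exact hT x (by omega)
  obtain ⟨l, hl, e', rfl⟩ := Nat.exists_prime_and_dvd he1
  set d := addOrderOf x with hd
  have hd0 : 0 < d := addOrderOf_pos x
  have hdx : (d : ZMod m) * x = 0 := by rw [← nsmul_eq_mul, hd, addOrderOf_nsmul_eq_zero]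
  have hld : l * d ∣ n := ⟨e', by rw [he]; ring⟩
  by_cases hl' : l ∣ d
  · have h1 : l ∣ x.val := by
      rw [← ZMod.natCast_zmod_val x, ← Nat.cast_mul, ZMod.natCast_eq_zero_iff] at hdx
      have := (hld.trans hnm).trans hdx
      rw [mul_comm l d] at this
      exact Nat.dvd_of_mul_dvd_mul_left hd0 this
    obtain ⟨a, ha⟩ := h1
    have hxa : x = (l : ZMod m) * a := by rw [← Nat.cast_mul, ← ha, ZMod.natCast_zmod_val]
    have hx0 : x ≠ 0 := by
      intro h
      rw [hd, h, addOrderOf_zero, Nat.dvd_one] at hl'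
      exact hl.one_lt.ne' hl'
    have h2 := hE.hd l hl ((dvd_mul_right l d).trans (hld.trans hnm)) a (hxa ▸ hx0)
    rw [← hxa] at h2
    rw [← h2]
    refine T.sum_mem fun y hy => ?_
    have hy' : l • y = x := by rw [nsmul_eq_mul]; exact (mem_filter.1 hy).2
    have h3 : d = addOrderOf y / (addOrderOf y).gcd l := by rw [hd, ← hy', addOrderOf_nsmul]
    have h4 : addOrderOf y = l * d := by
      rcases (Nat.dvd_prime hl).1 (Nat.gcd_dvd_right (addOrderOf y) l) with h | h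
      · rw [h, Nat.div_one] at h3
        have : l ∣ (addOrderOf y).gcd l := Nat.dvd_gcd (h3 ▸ hl') dvd_rfl
        rw [h, Nat.dvd_one] at this
        exact absurd this hl.one_lt.ne'
      · rw [h3, h, Nat.mul_div_cancel' (h ▸ Nat.gcd_dvd_left (addOrderOf y) l)]
    refine ih (n - addOrderOf y) ?_ y (h4 ▸ hld) rfl
    have h5 := Nat.le_of_dvd hn0 hld
    have h6 : d < l * d := by have := hl.two_le; nlinarith
    omega
  · obtain ⟨j, c, hj⟩ := hn l d hl ((dvd_mul_right l d).trans hld) ⟨_, he⟩ hl'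
    rw [hE.pure x ⟨j, ?_⟩]
    · exact T.zero_mem
    · have := congrArg (fun a : ℕ => (a : ZMod m) * x) hj
      simp only [Nat.cast_add, Nat.cast_pow, Nat.cast_one, Nat.cast_mul] at this
      rw [mul_right_comm, hdx, zero_mul] at this
      linear_combination this

theorem step1b (hE : IsDist m p E) (n : ℕ) (hnm : m = 2 * n) (hn : Odd n)
    (T : Submodule ℤ M) (hT : ∀ u, addOrderOf u ∣ n → E u ∈ T) (x : ZMod m) : E x ∈ T := by
  have h0 : (2 : ZMod m) * n = 0 := by
    have : ((2 * n : ℕ) : ZMod m) = 0 := by rw [← hnm, ZMod.natCast_self]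
    exact_mod_cast this
  have h2 : ∀ z : ZMod m, 2 * z = 0 → z = 0 ∨ z = n := by
    intro z hz
    have : -z = z := by linear_combination -hz
    rcases (ZMod.neg_eq_self_iff z).1 this with h | h
    · exact Or.inl h
    · right
      rw [← ZMod.natCast_zmod_val z]
      congr 1
      omega
  have hT' : ∀ u : ZMod m, (n : ZMod m) * u = 0 → E u ∈ T := fun u hu =>
    hT u (addOrderOf_dvd_of_nsmul_eq_zero (by rwa [nsmul_eq_mul]))
  rcases h2 (n * x) (by rw [← mul_assoc, h0, zero_mul]) with h | h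
  · exact hT' x h
  by_cases hx : (2 : ZMod m) * x = 0
  · rw [hE.pure x ⟨0, by linear_combination hx⟩]
    exact T.zero_mem
  have h3 := hE.hd 2 Nat.prime_two ⟨n, hnm⟩ x (by exact_mod_cast hx)
  rw [← add_sum_erase _ _ (a := x) (by simp), ← eq_sub_iff_add_eq] at h3
  rw [h3]
  refine T.sub_mem (hT' _ (by push_cast; linear_combination x * h0)) (T.sum_mem fun y hy => ?_)
  have hy1 := ne_of_mem_erase hy
  have hy2 := (mem_filter.1 (mem_of_mem_erase hy)).2
  rcases h2 (y - x) (by push_cast at hy2; linear_combination hy2) with h' | h'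
  · exact absurd (sub_eq_zero.1 h') hy1
  · obtain ⟨r, hr⟩ := hn
    have h4 : (n : ZMod m) = 2 * r + 1 := by rw [hr]; push_cast; rfl
    apply hT'
    linear_combination (n : ZMod m) * h' + h + (n : ZMod m) * h4 + ((r : ZMod m) + 1) * h0

end step1

/-- `2 m B₁(y / m)`, with the value `0` at `0`. -/
def B {m : ℕ} (y : ZMod m) : ℤ := if y = 0 then 0 else 2 * y.val - m

section bern

variable {m : ℕ} [NeZero m]

theorem B_neg (y : ZMod m) : B (-y) = -B y := by
  unfold B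
  rcases eq_or_ne y 0 with rfl | h
  · simp
  · rw [if_neg h, if_neg (neg_ne_zero.2 h), ZMod.neg_val, if_neg h,
      Nat.cast_sub (ZMod.val_lt y).le]
    ring

theorem B_dist (l : ℕ) (hl : l ∣ m) (x : ZMod m) (hx : (l : ZMod m) * x ≠ 0) :
    ∑ y with (l : ZMod m) * y = l * x, B y = B ((l : ZMod m) * x) := by
  obtain ⟨k, hk⟩ := hl
  have hm := NeZero.pos m
  have hl0 : 0 < l := Nat.pos_of_dvd_of_pos ⟨k, hk⟩ hm
  have hk0 : 0 < k := Nat.pos_of_dvd_of_pos ⟨l, by rw [hk, mul_comm]⟩ hm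
  have hv : ∀ y : ZMod m, ((l : ZMod m) * y).val = l * (y.val % k) := by
    intro y
    rw [← Nat.mul_mod_mul_left, ← hk, ← ZMod.val_natCast, Nat.cast_mul, ZMod.natCast_zmod_val]
  set r := x.val % k with hr
  have hrk : r < k := Nat.mod_lt _ hk0
  have hmem : ∀ y : ZMod m, (l : ZMod m) * y = l * x ↔ y.val % k = r := by
    intro y
    rw [← (ZMod.val_injective m).eq_iff, hv, hv, Nat.mul_right_inj hl0.ne']
  have hlt : ∀ i < l, r + k * i < m := by
    intro i hi
    have : k * (i + 1) ≤ k * l := Nat.mul_le_mul_left _ hi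
    rw [hk, mul_comm l k]
    nlinarith
  have h1 : ∑ y with (l : ZMod m) * y = l * x, B y
      = ∑ i ∈ range l, (2 * ((r : ℤ) + k * i) - m) := by
    refine sum_nbij' (fun y => y.val / k) (fun i => ((r + k * i : ℕ) : ZMod m)) ?_ ?_ ?_ ?_ ?_
    · intro y _
      rw [mem_range, Nat.div_lt_iff_lt_mul hk0, ← hk]
      exact ZMod.val_lt y
    · intro i hi
      rw [mem_filter, hmem, ZMod.val_cast_of_lt (hlt i (mem_range.1 hi)), Nat.add_mul_mod_self_left,
        Nat.mod_eq_of_lt hrk]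
      exact ⟨mem_univ _, rfl⟩
    · intro y hy
      rw [← (hmem y).1 (mem_filter.1 hy).2, Nat.mod_add_div, ZMod.natCast_zmod_val]
    · intro i hi
      rw [ZMod.val_cast_of_lt (hlt i (mem_range.1 hi)), Nat.add_mul_div_left _ _ hk0,
        Nat.div_eq_of_lt hrk, zero_add]
    · intro y hy
      have hy' := (mem_filter.1 hy).2
      have hy0 : y ≠ 0 := by rintro rfl; exact hx (by rw [← hy', mul_zero])
      rw [B, if_neg hy0, ← (hmem y).1 hy']
      have := Nat.mod_add_div y.val k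
      have h2 : (y.val : ℤ) = (y.val % k : ℕ) + k * (y.val / k : ℕ) := by exact_mod_cast this.symm
      rw [← h2]
  have h2 : ∀ a : ℕ, ∑ i ∈ range a, (2 * ((r : ℤ) + k * i) - m)
      = 2 * a * r + k * a * (a - 1) - a * m := by
    intro a
    induction a with
    | zero => simp
    | succ a ih => rw [sum_range_succ, ih]; push_cast; ring
  rw [h1, h2, B, if_neg hx, hv, ← hr]
  have h3 : (m : ℤ) = l * k := by exact_mod_cast hk
  rw [h3]
  push_cast
  ring

theorem isDist_B (p f : ℕ) (hf : 0 < f) (hp : (p : ZMod m) ^ f = 1) (t : (ZMod m)ˣ) :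
    IsDist m p fun x => ∑ j ∈ range f, B ((t : ZMod m) * (p : ZMod m) ^ j * x) := by
  have hneg : ∀ x : ZMod m, ∑ j ∈ range f, B ((t : ZMod m) * (p : ZMod m) ^ j * -x)
      = -∑ j ∈ range f, B ((t : ZMod m) * (p : ZMod m) ^ j * x) := by
    intro x
    simp only [mul_neg, B_neg, sum_neg_distrib]
  have hfrob : ∀ x : ZMod m, ∑ j ∈ range f, B ((t : ZMod m) * (p : ZMod m) ^ j * ((p : ZMod m) * x))
      = ∑ j ∈ range f, B ((t : ZMod m) * (p : ZMod m) ^ j * x) := by
    intro x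
    have h1 := sum_range_succ (fun j => B ((t : ZMod m) * (p : ZMod m) ^ j * x)) f
    have h2 := sum_range_succ' (fun j => B ((t : ZMod m) * (p : ZMod m) ^ j * x)) f
    rw [h1, hp, pow_zero, add_left_inj] at h2
    rw [h2]
    refine sum_congr rfl fun j _ => ?_
    rw [pow_succ]
    ring_nf
  refine ⟨hneg, hfrob, ?_, ?_⟩
  · rintro x ⟨j, hj⟩
    have h1 : ∀ i : ℕ, ∑ j ∈ range f, B ((t : ZMod m) * (p : ZMod m) ^ j * ((p : ZMod m) ^ i * x))
        = ∑ j ∈ range f, B ((t : ZMod m) * (p : ZMod m) ^ j * x) := by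
      intro i
      induction i with
      | zero => simp
      | succ i ih => rw [pow_succ', mul_assoc, hfrob, ih]
    have h2 := h1 j
    rw [hj, hneg] at h2
    linarith
  · intro l _ hl x hx
    rw [sum_comm]
    refine sum_congr rfl fun j _ => ?_
    obtain ⟨u, hu⟩ : IsUnit ((t : ZMod m) * (p : ZMod m) ^ j) :=
      t.isUnit.mul ((IsUnit.of_pow_eq_one hp hf.ne').pow j)
    rw [← hu, mul_left_comm, ← B_dist l hl (u * x) (by
      rw [mul_left_comm, Ne, Units.mul_right_eq_zero]; exact hx)]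
    refine sum_bijective (fun y => (u : ZMod m) * y) u.mulLeft_bijective (fun y => ?_) fun _ _ => rfl
    simp only [mem_filter, mem_univ, true_and]
    rw [mul_left_comm _ (u : ZMod m), mul_left_comm _ (u : ZMod m), Units.mul_right_inj]

end bern

theorem eq_zero_of_fourier {K : Type*} [CommGroup K] [Fintype K] (D : K → ℂ)
    (h : ∀ φ : K →* ℂ, ∑ k, φ k * D k = 0) (k0 : K) : D k0 = 0 := by
  classical
  have h1 : ∑ ψ : AddChar (Additive K) ℂ, ψ (-Additive.ofMul k0) *
      ∑ k, ψ (Additive.ofMul k) * D k = 0 := by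
    refine sum_eq_zero fun ψ _ => ?_
    have := h { toFun := fun k => ψ (Additive.ofMul k)
                map_one' := ψ.map_zero_eq_one
                map_mul' := fun a b => ψ.map_add_eq_mul (Additive.ofMul a) (Additive.ofMul b) }
    simp only [MonoidHom.coe_mk, OneHom.coe_mk] at this
    rw [this, mul_zero]
  simp only [mul_sum, ← mul_assoc, ← AddChar.map_add_eq_mul] at h1
  rw [sum_comm] at h1
  simp only [← sum_mul, AddChar.sum_apply_eq_ite, neg_add_eq_zero, EmbeddingLike.apply_eq_iff_eq,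
    ite_mul, zero_mul, sum_ite_eq, mem_univ, if_true] at h1
  exact (mul_eq_zero.1 h1).resolve_left (Nat.cast_ne_zero.2 Fintype.card_ne_zero)

section step2

variable {n p : ℕ} [NeZero n]

theorem char_vanish (f : ℕ) (hf : 0 < f)
    (hn : ∀ l d : ℕ, l.Prime → l ∣ n → d ∣ n → ¬ l ∣ d → ∃ j, d ∣ p ^ j + 1)
    (P : (ZMod n)ˣ) (hP : (P : ZMod n) = p) (c : (ZMod n)ˣ → ℤ)
    (hc : ∀ t : (ZMod n)ˣ, ∑ u : (ZMod n)ˣ, c u * ∑ j ∈ range f, B ((t : ZMod n) * (p : ZMod n) ^ j * (u : ZMod n)) = 0)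
    (χ : DirichletCharacter ℂ n) (hodd : χ.Odd) (hχ : χ P = 1) :
    ∑ u, (c u : ℂ) * χ (u⁻¹ : (ZMod n)ˣ) = 0 := by
  have hne : χ ≠ 1 := by
    rintro rfl
    have : (1 : DirichletCharacter ℂ n) (-1) = -1 := hodd
    rw [MulChar.one_apply isUnit_one.neg] at this
    norm_num at this
  have hn1 : n ≠ 1 := by
    rintro rfl
    exact hne (DirichletCharacter.level_one χ)
  have : Nontrivial (ZMod n) := ZMod.nontrivial_iff.2 hn1
  have hcond : ∀ l : ℕ, l.Prime → l ∣ n → l ∣ χ.conductor := by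
    intro l hl hln
    by_contra h
    obtain ⟨j, hj⟩ := hn l _ hl hln χ.conductor_dvd_level h
    have h1 := DirichletCharacter.changeLevel_eq_cast_of_dvd χ.primitiveCharacter
      χ.conductor_dvd_level (P ^ j)
    have h2 := DirichletCharacter.changeLevel_eq_cast_of_dvd χ.primitiveCharacter
      χ.conductor_dvd_level (-1)
    rw [DirichletCharacter.changeLevel_primitiveCharacter] at h1 h2
    have h3 : χ (-1) = -1 := hodd
    rw [Units.val_pow_eq_pow_val, map_pow, hχ, one_pow, hP, ← Nat.cast_pow,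
      ZMod.cast_natCast χ.conductor_dvd_level] at h1
    rw [Units.val_neg, Units.val_one, h3, ZMod.cast_neg χ.conductor_dvd_level,
      ZMod.cast_one χ.conductor_dvd_level] at h2
    have h4 : ((p ^ j : ℕ) : ZMod χ.conductor) = -1 := by
      rw [← ZMod.natCast_eq_zero_iff, Nat.cast_add, Nat.cast_one] at hj
      exact eq_neg_of_add_eq_zero_left hj
    rw [h4, ← h2] at h1
    norm_num at h1
  have hβ : ∑ v : (ZMod n)ˣ, χ v * (B (v : ZMod n) : ℂ) ≠ 0 := by
    have h1 : ∑ v : (ZMod n)ˣ, χ v * (B (v : ZMod n) : ℂ)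
        = ∑ y : ZMod n, (2 * (χ y * (y.val : ℂ)) - n * χ y) := by
      refine sum_of_injOn Units.val Units.val_injective.injOn (fun _ _ => mem_coe.2 (mem_univ _))
        (fun y _ hy => ?_) fun v _ => ?_
      · rw [χ.map_nonunit (a := y) fun ⟨v, hv⟩ => hy ⟨v, mem_coe.2 (mem_univ _), hv⟩]
        simp
      · rw [B, if_neg v.ne_zero]
        push_cast
        ring
    rw [h1, sum_sub_distrib, ← mul_sum, ← mul_sum, χ.sum_eq_zero_of_ne_one hne, mul_zero, sub_zero]
    exact mul_ne_zero two_ne_zero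
      (Pool.Agent.Shared.BernoulliOne.sum_mul_val_ne_zero χ hodd hcond)
  have h1 : ∑ t : (ZMod n)ˣ, χ t *
      ((∑ u : (ZMod n)ˣ, c u * ∑ j ∈ range f, B ((t : ZMod n) * (p : ZMod n) ^ j * (u : ZMod n)) : ℤ) : ℂ) = 0 := by
    simp [hc]
  have h2 : ∀ (u : (ZMod n)ˣ) (j : ℕ), ∑ t : (ZMod n)ˣ, χ t * (B ((t : ZMod n) * (p : ZMod n) ^ j * (u : ZMod n)) : ℂ)
      = χ (u⁻¹ : (ZMod n)ˣ) * ∑ v : (ZMod n)ˣ, χ v * (B (v : ZMod n) : ℂ) := by
    intro u j
    rw [mul_sum]
    refine Fintype.sum_bijective _ (Group.mulRight_bijective (P ^ j * u)) _ _ fun t => ?_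
    simp only [Units.val_mul, Units.val_pow_eq_pow_val, map_mul, map_pow, hχ, one_pow, one_mul]
    rw [hP, mul_assoc (t : ZMod n)]
    have : χ (u⁻¹ : (ZMod n)ˣ) * χ u = 1 := by rw [← map_mul, Units.inv_mul, map_one]
    linear_combination (-(χ t * (B ((t : ZMod n) * ((p : ZMod n) ^ j * (u : ZMod n))) : ℂ))) * this
  push_cast at h1
  simp only [mul_sum] at h1
  rw [sum_comm] at h1
  have h3 : ∀ u : (ZMod n)ˣ, ∑ t : (ZMod n)ˣ, ∑ j ∈ range f,
      χ t * ((c u : ℂ) * (B ((t : ZMod n) * (p : ZMod n) ^ j * (u : ZMod n)) : ℂ))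
      = (c u : ℂ) * χ (u⁻¹ : (ZMod n)ˣ) * (f * ∑ v : (ZMod n)ˣ, χ v * (B (v : ZMod n) : ℂ)) := by
    intro u
    rw [sum_comm]
    simp only [mul_left_comm (χ _) (c u : ℂ), ← mul_sum, h2, sum_const, card_range, nsmul_eq_mul]
    ring
  simp only [h3, ← sum_mul] at h1
  exact (mul_eq_zero.1 h1).resolve_right (mul_ne_zero (Nat.cast_ne_zero.2 hf.ne') hβ)

theorem step2_aux (f : ℕ) (hf : 0 < f)
    (hn : ∀ l d : ℕ, l.Prime → l ∣ n → d ∣ n → ¬ l ∣ d → ∃ j, d ∣ p ^ j + 1)
    (P : (ZMod n)ˣ) (hP : (P : ZMod n) = p) (c : (ZMod n)ˣ → ℤ)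
    (hc : ∀ t : (ZMod n)ˣ, ∑ u : (ZMod n)ˣ, c u *
      ∑ j ∈ range f, B ((t : ZMod n) * (p : ZMod n) ^ j * (u : ZMod n)) = 0)
    {M : Type*} [AddCommGroup M] (E : (ZMod n)ˣ → M) (h1 : ∀ u, E (-u) = -E u)
    {K : Type*} [CommGroup K] [Fintype K] (π : (ZMod n)ˣ →* K) (hs : Function.Surjective π)
    (hπ : ∀ u v, π u = π v → E u = E v) (hπP : π P = 1) (hH : π (-1) ≠ 1) :
    ∑ u, c u • E u = 0 := by
  classical
  choose σ hσ using hs
  let C : K → ℤ := fun k => ∑ u with π u = k, c u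
  have hπ1 : π (-1) * π (-1) = 1 := by rw [← map_mul]; simp
  have hC : ∀ k, C (π (-1) * k) = C k := by
    intro k
    have := eq_zero_of_fourier (fun k => (C (π (-1) * k) : ℂ) - C k) (fun φ => ?_) k
    · exact_mod_cast sub_eq_zero.1 this
    have e1 : ∑ k, φ k * (C (π (-1) * k) : ℂ) = φ (π (-1)) * ∑ k, φ k * C k := by
      rw [mul_sum]
      refine Fintype.sum_bijective _ (Group.mulLeft_bijective (π (-1))) _ _ fun k => ?_
      rw [← mul_assoc, ← map_mul, ← mul_assoc, hπ1, one_mul]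
    simp only [mul_sub, sum_sub_distrib, e1]
    have e2 : φ (π (-1)) * φ (π (-1)) = 1 := by rw [← map_mul, hπ1, map_one]
    rcases mul_self_eq_one_iff.1 e2 with h | h
    · rw [h, one_mul, sub_self]
    have e3 : ∑ k, φ k * C k = 0 := by
      let χ : DirichletCharacter ℂ n := MulChar.ofUnitHom (φ.toHomUnits.comp π)⁻¹
      have hχ : ∀ u : (ZMod n)ˣ, χ (u⁻¹ : (ZMod n)ˣ) = φ (π u) := by
        intro u
        rw [MulChar.ofUnitHom_coe]
        simp
      have := char_vanish f hf hn P hP c hc χ ?_ ?_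
      · rw [← this, ← sum_fiberwise univ π]
        refine sum_congr rfl fun k _ => ?_
        simp only [C, Int.cast_sum, mul_sum]
        refine sum_congr rfl fun u hu => ?_
        rw [hχ, (mem_filter.1 hu).2, mul_comm]
      · have := hχ (-1)
        rw [h, inv_neg_one] at this
        exact this
      · have := hχ P⁻¹
        rw [inv_inv] at this
        rw [this, map_inv, hπP, inv_one, map_one]
    rw [e3, mul_zero, sub_self]
  have e4 : ∑ u, c u • E u = ∑ k, C k • E (σ k) := by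
    rw [← sum_fiberwise univ π]
    refine sum_congr rfl fun k _ => ?_
    simp only [C, sum_smul]
    refine sum_congr rfl fun u hu => ?_
    rw [hπ u (σ k) (by rw [(mem_filter.1 hu).2, hσ])]
  rw [e4]
  refine sum_involution (fun k _ => π (-1) * k) (fun k _ => ?_) (fun k _ _ h => ?_)
    (fun _ _ => mem_univ _) fun k _ => ?_
  · rw [hC, hπ (σ (π (-1) * k)) (-σ k), h1, smul_neg, add_neg_cancel]
    rw [← neg_one_mul (σ k), map_mul, hσ, hσ]
  · exact hH (mul_eq_right.1 h)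
  · rw [← mul_assoc, hπ1, one_mul]

theorem step2 (f : ℕ) (hf : 0 < f)
    (hn : ∀ l d : ℕ, l.Prime → l ∣ n → d ∣ n → ¬ l ∣ d → ∃ j, d ∣ p ^ j + 1)
    (P : (ZMod n)ˣ) (hP : (P : ZMod n) = p) (c : (ZMod n)ˣ → ℤ)
    (hc : ∀ t : (ZMod n)ˣ, ∑ u : (ZMod n)ˣ, c u *
      ∑ j ∈ range f, B ((t : ZMod n) * (p : ZMod n) ^ j * (u : ZMod n)) = 0)
    {M : Type*} [AddCommGroup M] (E : (ZMod n)ˣ → M) (h1 : ∀ u, E (-u) = -E u)
    (h2 : ∀ u, E (P * u) = E u) (h3 : ∀ j : ℕ, P ^ j = -1 → ∀ u, E u = 0) :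
    ∑ u, c u • E u = 0 := by
  classical
  by_cases hH : (-1 : (ZMod n)ˣ) ∈ Subgroup.zpowers P
  · obtain ⟨j, hj⟩ := mem_powers_iff_mem_zpowers.2 hH
    simp [h3 j hj]
  have h4 : QuotientGroup.mk' (Subgroup.zpowers P) (-1) ≠ 1 :=
    fun h => hH ((QuotientGroup.eq_one_iff _).1 h)
  have h5 : QuotientGroup.mk' (Subgroup.zpowers P) P = 1 :=
    (QuotientGroup.eq_one_iff _).2 (Subgroup.mem_zpowers P)
  refine step2_aux f hf hn P hP c hc E h1 (K := (ZMod n)ˣ ⧸ Subgroup.zpowers P)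
    (QuotientGroup.mk' (Subgroup.zpowers P)) (QuotientGroup.mk'_surjective _) ?_ h5 h4
  intro u v huv
  obtain ⟨z, hz, rfl⟩ := (QuotientGroup.mk'_eq_mk' _).1 huv
  obtain ⟨j, rfl⟩ := mem_powers_iff_mem_zpowers.2 hz
  clear hz huv
  induction j with
  | zero => simp
  | succ j ih =>
    simp only at ih ⊢
    rw [ih, pow_succ', mul_left_comm, h2]

end step2

section level

variable {m : ℕ} [NeZero m]

/-- the embedding `ℤ/n → ℤ/m`, `w ↦ g w`, for `m = g n`. -/
def up (m g : ℕ) {n : ℕ} (w : ZMod n) : ZMod m := ((g * w.val : ℕ) : ZMod m)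

omit [NeZero m] in
theorem up_natCast {g n : ℕ} (h : m = g * n) (a : ℕ) : up m g (a : ZMod n) = g * a := by
  rw [up, ZMod.val_natCast, ← Nat.mul_mod_mul_left, ← h, ZMod.natCast_mod, Nat.cast_mul]

omit [NeZero m] in
theorem up_mul {g n : ℕ} [NeZero n] (h : m = g * n) (a : ℕ) (w : ZMod n) :
    up m g ((a : ZMod n) * w) = a * up m g w := by
  conv_lhs => rw [← ZMod.natCast_zmod_val w, ← Nat.cast_mul, up_natCast h]
  rw [up]
  push_cast
  ring

omit [NeZero m] in
theorem up_neg {g n : ℕ} [NeZero n] (h : m = g * n) (w : ZMod n) : up m g (-w) = -up m g w := by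
  have h1 : -w = ((n - 1 : ℕ) : ZMod n) * w := by
    rw [Nat.cast_sub NeZero.one_le, ZMod.natCast_self]; simp
  have h2 : (g : ZMod m) * n = 0 := by rw [← Nat.cast_mul, ← h, ZMod.natCast_self]
  rw [h1, up_mul h, Nat.cast_sub NeZero.one_le, up]
  push_cast
  linear_combination (w.val : ZMod m) * h2

theorem B_up {g n : ℕ} [NeZero n] (h : m = g * n) (w : ZMod n) : B (up m g w) = g * B w := by
  have hg : 0 < g := Nat.pos_of_dvd_of_pos ⟨n, h⟩ (NeZero.pos m)
  have h1 : (up m g w).val = g * w.val := by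
    rw [up, ZMod.val_cast_of_lt]
    rw [h]
    exact Nat.mul_lt_mul_of_pos_left (ZMod.val_lt w) hg
  unfold B
  rcases eq_or_ne w 0 with rfl | hw
  · simp [up]
  · rw [if_neg hw, if_neg, h1]
    · have : (m : ℤ) = g * n := by exact_mod_cast h
      rw [this]
      push_cast
      ring
    · rw [← ZMod.val_eq_zero, h1]
      exact mul_ne_zero hg.ne' ((ZMod.val_ne_zero w).2 hw)

theorem exists_up {g n : ℕ} [NeZero n] (h : m = g * n) (x : ZMod m) (hx : addOrderOf x = n) :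
    ∃ u : (ZMod n)ˣ, up m g (u : ZMod n) = x := by
  have hg : 0 < g := Nat.pos_of_dvd_of_pos ⟨n, h⟩ (NeZero.pos m)
  have h1 : (n : ZMod m) * x = 0 := by rw [← nsmul_eq_mul, ← hx, addOrderOf_nsmul_eq_zero]
  rw [← ZMod.natCast_zmod_val x, ← Nat.cast_mul, ZMod.natCast_eq_zero_iff] at h1
  obtain ⟨a, ha⟩ : g ∣ x.val := by
    have h2 : n * g ∣ n * x.val := by rwa [mul_comm n g, ← h]
    exact Nat.dvd_of_mul_dvd_mul_left (NeZero.pos n) h2
  have h2 : x = ((g * a : ℕ) : ZMod m) := by rw [← ha, ZMod.natCast_zmod_val]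
  rw [h2, ZMod.addOrderOf_coe _ (NeZero.ne m)] at hx
  have h3 : m / m.gcd (g * a) = n / n.gcd a := by
    rw [h, Nat.gcd_mul_left, Nat.mul_div_mul_left _ _ hg]
  rw [h3, Nat.div_eq_self] at hx
  have h4 : a.Coprime n := by
    rw [Nat.coprime_comm]
    exact hx.resolve_left (NeZero.ne n)
  exact ⟨ZMod.unitOfCoprime a h4, by rw [ZMod.coe_unitOfCoprime, up_natCast h, h2, Nat.cast_mul]⟩

/-- The Stickelberger distribution is universal. -/
theorem universal (p f : ℕ) (hf : 0 < f) (hp : (p : ZMod m) ^ f = 1)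
    (hm : ∀ l d : ℕ, l.Prime → l ∣ m → (l ≠ 2 ∨ 4 ∣ m) → d ∣ m → ¬ l ∣ d → ∃ j, d ∣ p ^ j + 1)
    {M : Type*} [AddCommGroup M] {E : ZMod m → M} (hE : IsDist m p E) {I : Type*} (s : Finset I)
    (a : I → ZMod m)
    (ha : ∀ t : (ZMod m)ˣ, ∑ i ∈ s, ∑ j ∈ range f, B ((t : ZMod m) * (p : ZMod m) ^ j * a i) = 0) :
    ∑ i ∈ s, E (a i) = 0 := by
  let E2 : ZMod m → M × ((ZMod m)ˣ → ℤ) := fun x =>
    (E x, fun t => ∑ j ∈ range f, B ((t : ZMod m) * (p : ZMod m) ^ j * x))
  have hB := isDist_B (m := m) p f hf hp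
  have hE2 : IsDist m p E2 := by
    refine ⟨fun x => Prod.ext (hE.neg x) (funext fun t => (hB t).neg x),
      fun x => Prod.ext (hE.frob x) (funext fun t => (hB t).frob x),
      fun x hx => Prod.ext (hE.pure x hx) (funext fun t => (hB t).pure x hx),
      fun l hl hlm x hx => Prod.ext ?_ (funext fun t => ?_)⟩
    · rw [Prod.fst_sum]; exact hE.hd l hl hlm x hx
    · rw [Prod.snd_sum, Finset.sum_apply]; exact (hB t).hd l hl hlm x hx
  obtain ⟨g, n, hmn, hrel, hlast⟩ : ∃ g n : ℕ, m = g * n ∧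
      (∀ l : ℕ, l.Prime → l ∣ n → (l ≠ 2 ∨ 4 ∣ m)) ∧
      ∀ T : Submodule ℤ (M × ((ZMod m)ˣ → ℤ)), (∀ u, addOrderOf u ∣ n → E2 u ∈ T) →
        ∀ x, E2 x ∈ T := by
    by_cases h : m % 4 = 2
    · have h1 : m = 2 * (m / 2) := by omega
      have h2 : Odd (m / 2) := Nat.odd_iff.2 (by omega)
      refine ⟨2, m / 2, h1, fun l _ hl => Or.inl ?_, fun T hT x => step1b hE2 _ h1 h2 T hT x⟩
      rintro rfl
      omega
    · refine ⟨1, m, (one_mul m).symm, fun l _ hl => ?_, fun T hT x => hT x ?_⟩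
      · rcases eq_or_ne l 2 with rfl | h2
        · right; omega
        · exact Or.inl h2
      · exact addOrderOf_dvd_of_nsmul_eq_zero (by simp)
  have hnm : n ∣ m := ⟨g, by rw [hmn, mul_comm]⟩
  have : NeZero n := ⟨by rintro rfl; exact NeZero.ne m (by simpa using hmn)⟩
  have hg : 0 < g := Nat.pos_of_dvd_of_pos ⟨n, hmn⟩ (NeZero.pos m)
  have hn : ∀ l d : ℕ, l.Prime → l ∣ n → d ∣ n → ¬ l ∣ d → ∃ j, d ∣ p ^ j + 1 :=
    fun l d hl h1 h2 h3 => hm l d hl (h1.trans hnm) (hrel l hl h1) (h2.trans hnm) h3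
  let T := Submodule.span ℤ (Set.range fun u : (ZMod n)ˣ => E2 (up m g (u : ZMod n)))
  have hT : ∀ x, E2 x ∈ T := hlast T (step1a hE2 n hnm hn T fun x hx => by
    obtain ⟨u, rfl⟩ := exists_up hmn x hx
    exact Submodule.subset_span ⟨u, rfl⟩)
  obtain ⟨c, hc⟩ := (Submodule.mem_span_range_iff_exists_fun ℤ).1
    (T.sum_mem (t := s) fun i _ => hT (a i))
  have hc1 := congrArg Prod.fst hc
  simp only [Prod.fst_sum, Prod.smul_fst, E2] at hc1
  rw [← hc1]
  have hpn : (p : ZMod n) ^ f = 1 := by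
    have := congrArg (ZMod.castHom hnm (ZMod n)) hp
    rwa [map_pow, map_natCast, map_one] at this
  obtain ⟨P, hP⟩ := IsUnit.of_pow_eq_one hpn hf.ne'
  refine step2 f hf hn P hP c (fun t' => ?_) _ (fun u => ?_) (fun u => ?_) fun j hj u => ?_
  · obtain ⟨t, rfl⟩ := ZMod.unitsMap_surjective hnm t'
    have hc2 := congrFun (congrArg Prod.snd hc) t
    simp only [Prod.snd_sum, Prod.smul_snd, E2, Finset.sum_apply, Pi.smul_apply, ha t,
      smul_eq_mul] at hc2
    have e1 : ∀ (j : ℕ) (u : ZMod n), (t : ZMod m) * (p : ZMod m) ^ j * up m g u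
        = up m g ((ZMod.unitsMap hnm t : ZMod n) * (p : ZMod n) ^ j * u) := by
      intro j u
      rw [ZMod.unitsMap_val, ZMod.cast_eq_val, ← Nat.cast_pow, ← Nat.cast_pow, ← Nat.cast_mul,
        up_mul hmn, Nat.cast_mul, ZMod.natCast_zmod_val]
    simp only [e1, B_up hmn, ← mul_sum, mul_left_comm _ (g : ℤ)] at hc2
    exact (mul_eq_zero.1 hc2).resolve_left (Nat.cast_ne_zero.2 hg.ne')
  · rw [Units.val_neg, up_neg hmn, hE.neg]
  · rw [Units.val_mul, hP, up_mul hmn, hE.frob]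
  · refine hE.pure _ ⟨j, ?_⟩
    have := congrArg Units.val hj
    rw [Units.val_pow_eq_pow_val, hP] at this
    rw [← Nat.cast_pow, ← up_mul hmn, ← up_neg hmn, Nat.cast_pow, this]
    simp

/-- The lattice theorem: an even-length Stickelberger-balanced family lies in every lattice that
contains the four families of relations. -/
theorem lattice (p f : ℕ) (hf : 0 < f) (hp : (p : ZMod m) ^ f = 1)
    (hm : ∀ l d : ℕ, l.Prime → l ∣ m → (l ≠ 2 ∨ 4 ∣ m) → d ∣ m → ¬ l ∣ d → ∃ j, d ∣ p ^ j + 1)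
    {A : Type*} [AddCommGroup A] (e : ZMod m → A) (S : AddSubgroup A)
    (h1 : ∀ x, x ≠ 0 → e x + e (-x) ∈ S) (h2 : ∀ x, e x - e (p * x) ∈ S)
    (h3 : ∀ (l : ℕ) (x : ZMod m), l.Prime → l ∣ m → (l : ZMod m) * x ≠ 0 →
      ∑ y with (l : ZMod m) * y = l * x, e y - e (l * x)
        - ∑ y with y ≠ 0 ∧ (l : ZMod m) * y = 0, e y ∈ S)
    (h4 : ∀ x y, x ≠ 0 → y ≠ 0 → (∃ j : ℕ, (p : ZMod m) ^ j * x = -x) →
      (∃ j : ℕ, (p : ZMod m) ^ j * y = -y) → e x - e y ∈ S)
    (k : ℕ) (a : Fin (2 * k) → ZMod m) (ha : ∀ i, a i ≠ 0)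
    (hs : ∀ t : (ZMod m)ˣ,
      ∑ i, ∑ j ∈ range f, ((t : ZMod m) * (p : ZMod m) ^ j * a i).val = f * k * m) :
    ∑ i, e (a i) ∈ S := by
  let π : A →+ A ⧸ S := QuotientAddGroup.mk' S
  have hπ : ∀ x, π x = 0 ↔ x ∈ S := fun x => QuotientAddGroup.eq_zero_iff x
  have hpu := IsUnit.of_pow_eq_one hp hf.ne'
  obtain ⟨z, hz1, hz2⟩ : ∃ z : A ⧸ S, z + z = 0 ∧
      ∀ x, x ≠ 0 → (∃ j : ℕ, (p : ZMod m) ^ j * x = -x) → π (e x) = z := by
    by_cases h : ∃ x : ZMod m, x ≠ 0 ∧ ∃ j : ℕ, (p : ZMod m) ^ j * x = -x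
    · obtain ⟨x0, hx0, hp0⟩ := h
      have h5 : ∀ x, x ≠ 0 → (∃ j : ℕ, (p : ZMod m) ^ j * x = -x) → π (e x) = π (e x0) :=
        fun x hx hpx => by rw [← sub_eq_zero, ← map_sub, hπ]; exact h4 x x0 hx hx0 hpx hp0
      refine ⟨π (e x0), ?_, h5⟩
      nth_rewrite 2 [← h5 (-x0) (neg_ne_zero.2 hx0) (hp0.imp fun j hj => by rw [mul_neg, hj])]
      rw [← map_add, hπ]
      exact h1 x0 hx0
    · exact ⟨0, add_zero 0, fun x hx hpx => absurd ⟨x, hx, hpx⟩ h⟩
  let E : ZMod m → A ⧸ S := fun x => if x = 0 then 0 else π (e x) - z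
  have hE0 : ∀ x, x ≠ 0 → π (e x) = E x + z := fun x hx => by
    simp only [E, if_neg hx, sub_add_cancel]
  have hneg : ∀ x, E (-x) = -E x := by
    intro x
    rcases eq_or_ne x 0 with rfl | hx
    · simp [E]
    · have := (hπ _).2 (h1 x hx)
      rw [map_add, hE0 x hx, hE0 _ (neg_ne_zero.2 hx), add_add_add_comm, hz1, add_zero] at this
      exact eq_neg_of_add_eq_zero_right this
  have hpure : ∀ x, (∃ j : ℕ, (p : ZMod m) ^ j * x = -x) → E x = 0 := by
    intro x hx
    rcases eq_or_ne x 0 with rfl | hx0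
    · simp [E]
    · simp only [E, if_neg hx0, hz2 x hx0 hx, sub_self]
  have hE : IsDist m p E := by
    refine ⟨hneg, fun x => ?_, hpure, fun l hl hlm x hx => ?_⟩
    · rcases eq_or_ne x 0 with rfl | hx
      · simp
      · have := (hπ _).2 (h2 x)
        rw [map_sub, hE0 x hx, hE0 _ (by rwa [Ne, hpu.mul_right_eq_zero]), add_sub_add_right_eq_sub,
          sub_eq_zero] at this
        exact this.symm
    · have h5 := (hπ _).2 (h3 l x hl hlm hx)
      have h6 : ∑ y with y ≠ 0 ∧ (l : ZMod m) * y = 0, E y = 0 := by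
        refine sum_involution (fun y _ => -y) (fun y _ => by rw [hneg, add_neg_cancel])
          (fun y _ h h' => h (hpure y ⟨0, by rw [pow_zero, one_mul, h']⟩)) (fun y hy => ?_)
          fun y _ => neg_neg y
        simpa using hy
      have h7 : (univ.filter fun y : ZMod m => (l : ZMod m) * y = l * x).card
          = (univ.filter fun y : ZMod m => y ≠ 0 ∧ (l : ZMod m) * y = 0).card + 1 := by
        have : (univ.filter fun y : ZMod m => y ≠ 0 ∧ (l : ZMod m) * y = 0)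
            = (univ.filter fun y : ZMod m => (l : ZMod m) * y = 0).erase 0 := by
          ext y; simp
        rw [this, card_erase_add_one (by simp)]
        refine card_bijective (fun y => y - x) (Equiv.subRight x).bijective fun y => ?_
        simp only [mem_filter, mem_univ, true_and, mul_sub, sub_eq_zero]
      rw [map_sub, map_sub, map_sum, map_sum, hE0 _ hx,
        sum_congr rfl fun y hy => hE0 y (by
          rintro rfl
          exact hx (by rw [← (mem_filter.1 hy).2, mul_zero])),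
        sum_congr rfl fun y hy => hE0 y (mem_filter.1 hy).2.1, sum_add_distrib, sum_add_distrib,
        h6, sum_const, sum_const, h7, succ_nsmul] at h5
      rw [← sub_eq_zero, ← h5]
      abel
  have h8 := universal p f hf hp hm hE univ a fun t => by
    have h9 : ∀ i j, B ((t : ZMod m) * (p : ZMod m) ^ j * a i)
        = 2 * (((t : ZMod m) * (p : ZMod m) ^ j * a i).val : ℤ) - m := fun i j => by
      rw [B, if_neg]
      rw [(t.isUnit.mul (hpu.pow j)).mul_right_eq_zero]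
      exact ha i
    have h10 := congrArg (Nat.cast : ℕ → ℤ) (hs t)
    rw [Nat.cast_sum] at h10
    simp only [Nat.cast_sum] at h10
    simp only [h9, sum_sub_distrib, ← mul_sum, h10, sum_const, card_range, card_univ,
      Fintype.card_fin]
    simp only [nsmul_eq_mul]
    push_cast
    ring
  rw [← hπ, map_sum, sum_congr rfl fun i _ => hE0 _ (ha i), sum_add_distrib, h8, sum_const,
    card_univ, Fintype.card_fin, zero_add, mul_nsmul, two_nsmul, hz1, nsmul_zero]

end level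

end Pool.Agent.Lib.MP_60ec62_ag
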