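import Mathlib
import Pool.Agent.Lib.MP_60ec62_ag.Dist

/-!
Universality of the Stickelberger distribution for families of classes of several levels.
-/

namespace Pool.Agent.Lib.MP_60ec62_ag

open Finset

theorem exists_part (m : ℕ) (hm : m ≠ 0) (S : Finset ℕ) (hS : S ⊆ m.primeFactors) :
    ∃ g n : ℕ, m = g * n ∧ (∀ l : ℕ, l.Prime → (l ∣ n ↔ l ∈ S)) ∧
      ∀ d, d ∣ m → (∀ l : ℕ, l.Prime → l ∣ d → l ∈ S) → d ∣ n := by
  have h1 : m = (∏ l ∈ m.primeFactors \ S, l ^ m.factorization l) *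
      ∏ l ∈ S, l ^ m.factorization l := by
    rw [prod_sdiff hS]; exact Nat.prod_primeFactors_pow_factorization hm
  refine ⟨_, _, h1, fun l hl => ⟨fun h => ?_, fun h => ?_⟩, fun d hd h => ?_⟩
  · obtain ⟨a, ha, h2⟩ := (Prime.dvd_finsetProd_iff hl.prime _).1 h
    rwa [(Nat.prime_dvd_prime_iff_eq hl (Nat.prime_of_mem_primeFactors (hS ha))).1
      (hl.dvd_of_dvd_pow h2)]
  · refine Dvd.dvd.trans (dvd_pow_self l ?_) (dvd_prod_of_mem _ h)
    exact (hl.factorization_pos_of_dvd hm (Nat.dvd_of_mem_primeFactors (hS h))).ne'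
  · rw [h1] at hd
    refine Nat.Coprime.dvd_of_dvd_mul_left (Nat.Coprime.prod_right fun l hl => ?_) hd
    have hl' := Nat.prime_of_mem_primeFactors (mem_sdiff.1 hl).1
    refine Nat.Coprime.pow_right _ ((Nat.Prime.coprime_iff_not_dvd hl').2 fun h' => ?_).symm
    exact (mem_sdiff.1 hl).2 (h l hl' h')

variable {m : ℕ} [NeZero m]

theorem step1c {p : ℕ} {M : Type*} [AddCommGroup M] {E : ZMod m → M} (hE : IsDist m p E)
    (h2m : 2 ∣ m) (n : ℕ) (hn : Odd n) (T : Submodule ℤ M)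
    (hT : ∀ u, addOrderOf u ∣ n → E u ∈ T) (x : ZMod m) (hx : addOrderOf x ∣ 2 * n) :
    E x ∈ T := by
  obtain ⟨h, hh⟩ := h2m
  have h0 : (2 : ZMod m) * h = 0 := by
    have : ((2 * h : ℕ) : ZMod m) = 0 := by rw [← hh, ZMod.natCast_self]
    exact_mod_cast this
  have h2 : ∀ z : ZMod m, 2 * z = 0 → z = 0 ∨ z = h := by
    intro z hz
    have : -z = z := by linear_combination -hz
    rcases (ZMod.neg_eq_self_iff z).1 this with h' | h'
    · exact Or.inl h'
    · right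
      rw [← ZMod.natCast_zmod_val z]
      congr 1
      omega
  have hT' : ∀ u : ZMod m, (n : ZMod m) * u = 0 → E u ∈ T := fun u hu =>
    hT u (addOrderOf_dvd_of_nsmul_eq_zero (by rwa [nsmul_eq_mul]))
  have hx' : (2 : ZMod m) * (n * x) = 0 := by
    have := addOrderOf_dvd_iff_nsmul_eq_zero.1 hx
    rw [nsmul_eq_mul] at this
    push_cast at this
    rw [← mul_assoc, this]
  rcases h2 (n * x) hx' with h' | h'
  · exact hT' x h'
  by_cases hx : (2 : ZMod m) * x = 0
  · rw [hE.pure x ⟨0, by linear_combination hx⟩]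
    exact T.zero_mem
  have h3 := hE.hd 2 Nat.prime_two ⟨h, hh⟩ x (by exact_mod_cast hx)
  rw [← add_sum_erase _ _ (a := x) (by simp), ← eq_sub_iff_add_eq] at h3
  rw [h3]
  refine T.sub_mem (hT' _ (by push_cast; linear_combination hx')) (T.sum_mem fun y hy => ?_)
  have hy1 := ne_of_mem_erase hy
  have hy2 := (mem_filter.1 (mem_of_mem_erase hy)).2
  rcases h2 (y - x) (by push_cast at hy2; linear_combination hy2) with h'' | h''
  · exact absurd (sub_eq_zero.1 h'') hy1
  · obtain ⟨r, hr⟩ := hn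
    have h4 : (n : ZMod m) = 2 * r + 1 := by rw [hr]; push_cast; rfl
    apply hT'
    linear_combination (n : ZMod m) * h'' + h' + (h : ZMod m) * h4 + ((r : ZMod m) + 1) * h0

theorem exists_split {n n' : ℕ} (hn : n ∣ m) (hn' : n' ∣ m) (x : (ZMod m)ˣ)
    (hx : (x : ZMod m).val ≡ 1 [MOD n'.gcd n]) :
    ∃ v w : (ZMod m)ˣ, ZMod.unitsMap hn v = 1 ∧ ZMod.unitsMap hn' w = 1 ∧ x = v * w := by
  obtain ⟨z, hz1, hz2⟩ := Nat.chineseRemainder' hx
  have hc : z.Coprime (n'.lcm n) := by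
    refine Nat.Coprime.coprime_dvd_right (Nat.lcm_dvd_mul n' n) (Nat.Coprime.mul_right ?_ ?_)
    · rw [Nat.Coprime, hz1.gcd_eq]
      exact (ZMod.val_coe_unit_coprime x).coprime_dvd_right hn'
    · rw [Nat.Coprime, hz2.gcd_eq]; simp
  obtain ⟨v, hv⟩ := ZMod.unitsMap_surjective (Nat.lcm_dvd hn' hn) (ZMod.unitOfCoprime z hc)
  have hv' : (v : ZMod m).val ≡ z [MOD n'.lcm n] := by
    have := congrArg Units.val hv
    rwa [ZMod.unitsMap_val, ZMod.cast_eq_val, ZMod.coe_unitOfCoprime,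
      ZMod.natCast_eq_natCast_iff] at this
  refine ⟨v, v⁻¹ * x, Units.ext ?_, ?_, by simp⟩
  · rw [ZMod.unitsMap_val, ZMod.cast_eq_val, Units.val_one, ← Nat.cast_one,
      ZMod.natCast_eq_natCast_iff]
    exact (hv'.of_dvd (Nat.dvd_lcm_right _ _)).trans hz2
  · rw [map_mul, map_inv, inv_mul_eq_one]
    refine Units.ext ?_
    rw [ZMod.unitsMap_val, ZMod.unitsMap_val, ZMod.cast_eq_val, ZMod.cast_eq_val,
      ZMod.natCast_eq_natCast_iff]
    exact (hv'.of_dvd (Nat.dvd_lcm_left _ _)).trans hz1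

theorem avg_zero {n n' : ℕ} (hn : n ∣ m) (hn' : n' ∣ m) (P : (ZMod m)ˣ) (j : ℕ)
    (hj : ((-P ^ j : (ZMod m)ˣ) : ZMod m).val ≡ 1 [MOD n'.gcd n]) (F : (ZMod m)ˣ → ℤ)
    (h1 : ∀ t, F (-t) = -F t) (h2 : ∀ t, F (P * t) = F t)
    (h3 : ∀ t w, ZMod.unitsMap hn' w = 1 → F (t * w) = F t) (t : (ZMod m)ˣ) :
    ∑ v with ZMod.unitsMap hn v = 1, F (t * v) = 0 := by
  obtain ⟨v, w, hv, hw, hvw⟩ := exists_split hn hn' _ hj
  have h4 : ∀ (i : ℕ) t, F (P ^ i * t) = F t := by
    intro i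
    induction i with
    | zero => simp
    | succ i ih => intro t; rw [pow_succ', mul_assoc, h2, ih]
  have h5 : ∑ u with ZMod.unitsMap hn u = 1, F (t * u)
      = ∑ u with ZMod.unitsMap hn u = 1, -F (t * u) := by
    symm
    refine sum_bijective (fun u => v * u) (Group.mulLeft_bijective v) (fun u => ?_) fun u _ => ?_
    · simp only [mem_filter, mem_univ, true_and, map_mul, hv, one_mul]
    · rw [← h3 (t * (v * u)) w hw, ← h4 j (t * u), ← h1, ← neg_mul, hvw]
      congr 1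
      simp only [mul_comm, mul_left_comm]
  rw [sum_neg_distrib] at h5
  linarith

/-- The Stickelberger distribution is universal on classes whose relevant primes satisfy the
purity condition. -/
theorem universal_multi (p f : ℕ) (hf : 0 < f) (hp : (p : ZMod m) ^ f = 1)
    {M : Type*} [AddCommGroup M] {E : ZMod m → M} (hE : IsDist m p E) {I : Type*} [Fintype I]
    (a : I → ZMod m)
    (hm : ∀ (i : I) (l e : ℕ), l.Prime → l ∣ addOrderOf (a i) → (l ≠ 2 ∨ 4 ∣ addOrderOf (a i)) →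
      e ∣ m → ¬ l ∣ e →
      (∀ l' : ℕ, l'.Prime → l' ∣ e → l' ∣ addOrderOf (a i) ∧ (l' ≠ 2 ∨ 4 ∣ addOrderOf (a i))) →
      ∃ j, e ∣ p ^ j + 1)
    (ha : ∀ t : (ZMod m)ˣ, ∑ i, ∑ j ∈ range f, B ((t : ZMod m) * (p : ZMod m) ^ j * a i) = 0) :
    ∑ i, E (a i) = 0 := by
  classical
  let E2 : ZMod m → M × ((ZMod m)ˣ → ℤ) := fun x =>
    (E x, fun t => ∑ j ∈ range f, B ((t : ZMod m) * (p : ZMod m) ^ j * x))
  have hB := isDist_B (m := m) p f hf hp
  have hE2 : IsDist m p E2 := by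
    refine ⟨fun x => Prod.ext (hE.neg x) (funext fun t => (hB t).neg x),
      fun x => Prod.ext (hE.frob x) (funext fun t => (hB t).frob x),
      fun x hx => Prod.ext (hE.pure x hx) (funext fun t => (hB t).pure x hx),
      fun l hl hlm x hx => Prod.ext ?_ (funext fun t => ?_)⟩
    · rw [Prod.fst_sum]; exact hE.hd l hl hlm x hx
    · rw [Prod.snd_sum, Finset.sum_apply]; exact (hB t).hd l hl hlm x hx
  have hord : ∀ x : ZMod m, addOrderOf x ∣ m := fun x => addOrderOf_dvd_of_nsmul_eq_zero (by simp)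
  let S : I → Finset ℕ := fun i => m.primeFactors.filter fun l =>
    l ∣ addOrderOf (a i) ∧ (l ≠ 2 ∨ 4 ∣ addOrderOf (a i))
  have hS : ∀ i l, l.Prime → (l ∈ S i ↔ l ∣ addOrderOf (a i) ∧ (l ≠ 2 ∨ 4 ∣ addOrderOf (a i))) :=
    fun i l hl => by
      simp only [S, mem_filter, and_iff_right_iff_imp]
      exact fun h => Nat.mem_primeFactors.2 ⟨hl, h.1.trans (hord _), NeZero.ne m⟩
  choose! g n hgn hn1 hn2 using exists_part m (NeZero.ne m)
  have hsub : ∀ i, S i ⊆ m.primeFactors := fun i => filter_subset _ _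
  have hnm : ∀ i, n (S i) ∣ m := fun i => ⟨g (S i), by rw [mul_comm]; exact hgn _ (hsub i)⟩
  have hn : ∀ i, ∀ l d : ℕ, l.Prime → l ∣ n (S i) → d ∣ n (S i) → ¬ l ∣ d →
      ∃ j, d ∣ p ^ j + 1 := by
    intro i l d hl h1 h2 h3
    have h4 := (hS i l hl).1 ((hn1 _ (hsub i) l hl).1 h1)
    exact hm i l d hl h4.1 h4.2 (h2.trans (hnm i)) h3 fun l' hl' h5 =>
      (hS i l' hl').1 ((hn1 _ (hsub i) l' hl').1 (h5.trans h2))
  let T : Finset ℕ → Submodule ℤ (M × ((ZMod m)ˣ → ℤ)) := fun s =>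
    Submodule.span ℤ (Set.range fun u : (ZMod (n s))ˣ => E2 (up m (g s) (u : ZMod (n s))))
  have hn0 : ∀ i, NeZero (n (S i)) := fun i =>
    ⟨(Nat.pos_of_dvd_of_pos (hnm i) (NeZero.pos m)).ne'⟩
  have hT : ∀ i, E2 (a i) ∈ T (S i) := by
    intro i
    have := hn0 i
    have h1 := step1a hE2 _ (hnm i) (hn i) (T (S i)) fun x hx => by
      obtain ⟨u, rfl⟩ := exists_up (hgn _ (hsub i)) x hx
      exact Submodule.subset_span ⟨u, rfl⟩
    by_cases h : addOrderOf (a i) % 4 = 2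
    · obtain ⟨d, hd⟩ : 2 ∣ addOrderOf (a i) := by omega
      refine step1c hE2 ((Dvd.intro _ hd.symm).trans (hord _)) _ ?_ _ h1 _ ?_
      · rw [← Nat.not_even_iff_odd, even_iff_two_dvd]
        intro h2
        have := ((hS i 2 Nat.prime_two).1 ((hn1 _ (hsub i) 2 Nat.prime_two).1 h2)).2
        omega
      · rw [hd]
        refine Nat.mul_dvd_mul_left 2 (hn2 _ (hsub i) d
          ((Dvd.intro_left _ hd.symm).trans (hord _)) fun l hl hld => ?_)
        refine (hS i l hl).2 ⟨hld.trans (Dvd.intro_left _ hd.symm), Or.inl ?_⟩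
        rintro rfl
        omega
    · refine h1 _ (hn2 _ (hsub i) _ (hord _) fun l hl hld => (hS i l hl).2 ⟨hld, ?_⟩)
      rcases eq_or_ne l 2 with rfl | h2
      · right; omega
      · exact Or.inl h2
  have hpu := IsUnit.of_pow_eq_one hp hf.ne'
  obtain ⟨P, hP⟩ := hpu
  have e1 : ∀ (i : I) (t : (ZMod m)ˣ) (j : ℕ) (u : ZMod (n (S i))),
      (t : ZMod m) * (p : ZMod m) ^ j * up m (g (S i)) u = up m (g (S i))
        ((ZMod.unitsMap (hnm i) t : ZMod (n (S i))) * (p : ZMod (n (S i))) ^ j * u) := by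
    intro i t j u
    have := hn0 i
    rw [ZMod.unitsMap_val, ZMod.cast_eq_val, ← Nat.cast_pow, ← Nat.cast_pow, ← Nat.cast_mul,
      up_mul (hgn _ (hsub i)), Nat.cast_mul, ZMod.natCast_zmod_val]
  have hker : ∀ i, ∀ b ∈ T (S i), ∀ t w, ZMod.unitsMap (hnm i) w = 1 → b.2 (t * w) = b.2 t := by
    intro i b hb t w hw
    induction hb using Submodule.span_induction with
    | mem x hx =>
      obtain ⟨u, rfl⟩ := hx
      simp only [E2, e1, map_mul, hw, mul_one]
    | zero => rfl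
    | add x y _ _ hx hy => simp only [Prod.snd_add, Pi.add_apply, hx, hy]
    | smul c x _ hx => simp only [Prod.smul_snd, Pi.smul_apply, hx]
  let b : Finset ℕ → M × ((ZMod m)ˣ → ℤ) := fun s => ∑ i with S i = s, E2 (a i)
  have hb : ∀ i, b (S i) ∈ T (S i) := fun i =>
    Submodule.sum_mem _ fun i' hi' => (mem_filter.1 hi').2 ▸ hT i'
  have hb2 : ∀ i0, (b (S i0)).2 = 0 := by
    intro i0
    funext t
    have h1 : ∑ v with ZMod.unitsMap (hnm i0) v = 1, ∑ i, (E2 (a i)).2 (t * v) = 0 :=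
      sum_eq_zero fun v _ => ha _
    rw [sum_comm, ← sum_filter_add_sum_filter_not univ fun i => S i = S i0,
      sum_eq_zero (s := univ.filter fun i => ¬ S i = S i0), add_zero, sum_comm] at h1
    · have h2 : ∀ v ∈ univ.filter fun v => ZMod.unitsMap (hnm i0) v = 1,
          ∑ i with S i = S i0, (E2 (a i)).2 (t * v) = (b (S i0)).2 t := by
        intro v hv
        rw [← hker i0 _ (hb i0) t v (mem_filter.1 hv).2]
        simp only [b, Prod.snd_sum, Finset.sum_apply]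
      rw [sum_congr rfl h2, sum_const, nsmul_eq_mul] at h1
      refine (mul_eq_zero.1 h1).resolve_left (Nat.cast_ne_zero.2 (card_ne_zero.2 ⟨1, ?_⟩))
      simp
    · intro i hi
      have hne := (mem_filter.1 hi).2
      obtain ⟨j, hj⟩ : ∃ j, (n (S i)).gcd (n (S i0)) ∣ p ^ j + 1 := by
        by_cases h : S i ⊆ S i0
        · obtain ⟨l, hl1, hl2⟩ := exists_of_ssubset (ssubset_of_ne_of_subset hne h)
          have hl := Nat.prime_of_mem_primeFactors (hsub _ hl1)
          exact hn i0 l _ hl ((hn1 _ (hsub _) l hl).2 hl1) (Nat.gcd_dvd_right _ _) fun h' =>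
            hl2 ((hn1 _ (hsub _) l hl).1 (h'.trans (Nat.gcd_dvd_left _ _)))
        · obtain ⟨l, hl1, hl2⟩ := not_subset.1 h
          have hl := Nat.prime_of_mem_primeFactors (hsub _ hl1)
          exact hn i l _ hl ((hn1 _ (hsub _) l hl).2 hl1) (Nat.gcd_dvd_left _ _) fun h' =>
            hl2 ((hn1 _ (hsub _) l hl).1 (h'.trans (Nat.gcd_dvd_right _ _)))
      refine avg_zero (hnm i0) (hnm i) P j ?_ (E2 (a i)).2 (fun t => ?_) (fun t => ?_)
        (hker i _ (hT i)) t
      · have hd := (Nat.gcd_dvd_left (n (S i)) (n (S i0))).trans (hnm i)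
        rw [← ZMod.natCast_eq_natCast_iff, ← ZMod.cast_eq_val, Units.val_neg,
          Units.val_pow_eq_pow_val, hP, ← Nat.cast_pow, ZMod.cast_neg hd, ZMod.cast_natCast hd]
        rw [← ZMod.natCast_eq_zero_iff, Nat.cast_add] at hj
        linear_combination -hj
      · simp only [E2, Units.val_neg, neg_mul, B_neg, sum_neg_distrib]
      · have := (hB t).frob (a i)
        simp only [E2, Units.val_mul, hP]
        rw [← this]
        exact sum_congr rfl fun j _ => by ring_nf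
  have hb1 : ∀ i0, (b (S i0)).1 = 0 := by
    intro i
    have := hn0 i
    have hmn := hgn _ (hsub i)
    have hg : 0 < g (S i) := Nat.pos_of_dvd_of_pos ⟨_, hmn⟩ (NeZero.pos m)
    obtain ⟨c, hc⟩ := (Submodule.mem_span_range_iff_exists_fun ℤ).1 (hb i)
    have hc1 := congrArg Prod.fst hc
    simp only [Prod.fst_sum, Prod.smul_fst, E2] at hc1
    rw [← hc1]
    have hpn : (p : ZMod (n (S i))) ^ f = 1 := by
      have := congrArg (ZMod.castHom (hnm i) (ZMod (n (S i)))) hp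
      rwa [map_pow, map_natCast, map_one] at this
    obtain ⟨Q, hQ⟩ := IsUnit.of_pow_eq_one hpn hf.ne'
    refine step2 f hf (hn i) Q hQ c (fun t' => ?_) _ (fun u => ?_) (fun u => ?_) fun j hj u => ?_
    · obtain ⟨t, rfl⟩ := ZMod.unitsMap_surjective (hnm i) t'
      have hc2 := congrFun (congrArg Prod.snd hc) t
      simp only [Prod.snd_sum, Prod.smul_snd, E2, Finset.sum_apply, Pi.smul_apply, hb2 i,
        smul_eq_mul, Pi.zero_apply] at hc2
      simp only [e1, B_up hmn, ← mul_sum, mul_left_comm _ (g (S i) : ℤ)] at hc2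
      exact (mul_eq_zero.1 hc2).resolve_left (Nat.cast_ne_zero.2 hg.ne')
    · rw [Units.val_neg, up_neg hmn, hE.neg]
    · rw [Units.val_mul, hQ, up_mul hmn, hE.frob]
    · refine hE.pure _ ⟨j, ?_⟩
      have := congrArg Units.val hj
      rw [Units.val_pow_eq_pow_val, hQ] at this
      rw [← Nat.cast_pow, ← up_mul hmn, ← up_neg hmn, Nat.cast_pow, this]
      simp
  rw [← sum_fiberwise_of_maps_to (t := univ.image S) (g := S)
    fun i hi => mem_image_of_mem S hi]
  refine sum_eq_zero fun s hs => ?_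
  obtain ⟨i, -, rfl⟩ := mem_image.1 hs
  have := hb1 i
  simpa only [b, Prod.fst_sum] using this

/-- The quotient of a lattice containing the four families of relations carries a distribution. -/
theorem exists_isDist (p : ℕ) (hpu : IsUnit (p : ZMod m))
    {A : Type*} [AddCommGroup A] (e : ZMod m → A) (S : AddSubgroup A)
    (h1 : ∀ x, x ≠ 0 → e x + e (-x) ∈ S) (h2 : ∀ x, e x - e (p * x) ∈ S)
    (h3 : ∀ (l : ℕ) (x : ZMod m), l.Prime → l ∣ m → (l : ZMod m) * x ≠ 0 →
      ∑ y with (l : ZMod m) * y = l * x, e y - e (l * x)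
        - ∑ y with y ≠ 0 ∧ (l : ZMod m) * y = 0, e y ∈ S)
    (h4 : ∀ x y, x ≠ 0 → y ≠ 0 → (∃ j : ℕ, (p : ZMod m) ^ j * x = -x) →
      (∃ j : ℕ, (p : ZMod m) ^ j * y = -y) → e x - e y ∈ S) :
    ∃ (z : A ⧸ S) (E : ZMod m → A ⧸ S), z + z = 0 ∧ IsDist m p E ∧
      ∀ x, x ≠ 0 → QuotientAddGroup.mk' S (e x) = E x + z := by
  let π : A →+ A ⧸ S := QuotientAddGroup.mk' S
  have hπ : ∀ x, π x = 0 ↔ x ∈ S := fun x => QuotientAddGroup.eq_zero_iff x
  obtain ⟨z, hz1, hz2⟩ : ∃ z : A ⧸ S, z + z = 0 ∧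
      ∀ x, x ≠ 0 → (∃ j : ℕ, (p : ZMod m) ^ j * x = -x) → π (e x) = z := by
    by_cases h : ∃ x : ZMod m, x ≠ 0 ∧ ∃ j : ℕ, (p : ZMod m) ^ j * x = -x
    · obtain ⟨x0, hx0, hp0⟩ := h
      have h5 : ∀ x, x ≠ 0 → (∃ j : ℕ, (p : ZMod m) ^ j * x = -x) → π (e x) = π (e x0) :=
        fun x hx hpx => by rw [← sub_eq_zero, ← map_sub, hπ]; exact h4 x x0 hx hx0 hpx hp0
      refine ⟨π (e x0), ?_, h5⟩
      nth_rewrite 2 [← h5 (-x0) (neg_ne_zero.2 hx0) (hp0.imp fun j hj => by rw [mul_neg, hj])]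
      rw [← map_add, hπ]
      exact h1 x0 hx0
    · exact ⟨0, add_zero 0, fun x hx hpx => absurd ⟨x, hx, hpx⟩ h⟩
  let E : ZMod m → A ⧸ S := fun x => if x = 0 then 0 else π (e x) - z
  have hE0 : ∀ x, x ≠ 0 → π (e x) = E x + z := fun x hx => by
    simp only [E, if_neg hx, sub_add_cancel]
  have hneg : ∀ x, E (-x) = -E x := by
    intro x
    rcases eq_or_ne x 0 with rfl | hx
    · simp [E]
    · have := (hπ _).2 (h1 x hx)
      rw [map_add, hE0 x hx, hE0 _ (neg_ne_zero.2 hx), add_add_add_comm, hz1, add_zero] at this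
      exact eq_neg_of_add_eq_zero_right this
  have hpure : ∀ x, (∃ j : ℕ, (p : ZMod m) ^ j * x = -x) → E x = 0 := by
    intro x hx
    rcases eq_or_ne x 0 with rfl | hx0
    · simp [E]
    · simp only [E, if_neg hx0, hz2 x hx0 hx, sub_self]
  refine ⟨z, E, hz1, ⟨hneg, fun x => ?_, hpure, fun l hl hlm x hx => ?_⟩, hE0⟩
  · rcases eq_or_ne x 0 with rfl | hx
    · simp
    · have := (hπ _).2 (h2 x)
      rw [map_sub, hE0 x hx, hE0 _ (by rwa [Ne, hpu.mul_right_eq_zero]), add_sub_add_right_eq_sub,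
        sub_eq_zero] at this
      exact this.symm
  · have h5 := (hπ _).2 (h3 l x hl hlm hx)
    have h6 : ∑ y with y ≠ 0 ∧ (l : ZMod m) * y = 0, E y = 0 := by
      refine sum_involution (fun y _ => -y) (fun y _ => by rw [hneg, add_neg_cancel])
        (fun y _ h h' => h (hpure y ⟨0, by rw [pow_zero, one_mul, h']⟩)) (fun y hy => ?_)
        fun y _ => neg_neg y
      simpa using hy
    have h7 : (univ.filter fun y : ZMod m => (l : ZMod m) * y = l * x).card
        = (univ.filter fun y : ZMod m => y ≠ 0 ∧ (l : ZMod m) * y = 0).card + 1 := by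
      have : (univ.filter fun y : ZMod m => y ≠ 0 ∧ (l : ZMod m) * y = 0)
          = (univ.filter fun y : ZMod m => (l : ZMod m) * y = 0).erase 0 := by
        ext y; simp
      rw [this, card_erase_add_one (by simp)]
      refine card_bijective (fun y => y - x) (Equiv.subRight x).bijective fun y => ?_
      simp only [mem_filter, mem_univ, true_and, mul_sub, sub_eq_zero]
    rw [map_sub, map_sub, map_sum, map_sum, hE0 _ hx,
      sum_congr rfl fun y hy => hE0 y (by
        rintro rfl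
        exact hx (by rw [← (mem_filter.1 hy).2, mul_zero])),
      sum_congr rfl fun y hy => hE0 y (mem_filter.1 hy).2.1, sum_add_distrib, sum_add_distrib,
      h6, sum_const, sum_const, h7, succ_nsmul] at h5
    rw [← sub_eq_zero, ← h5]
    abel

end Pool.Agent.Lib.MP_60ec62_ag
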