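import Mathlib
import Pool.Agent.Lib.MP_60ec62_ag.Multi

/-!
Kubert type spanning sets for distributions with an anchor prime.
-/

namespace Pool.Agent.Lib.MP_60ec62_ag

open Finset

variable {m : ℕ}

/-- the component at the prime `l`. -/
def comp (m l : ℕ) : ZMod m →+* ZMod (l ^ m.factorization l) :=
  ZMod.castHom (Nat.ordProj_dvd m l) _

theorem comp_val [NeZero m] (l : ℕ) (y : ZMod m) :
    comp m l y = (y.val : ZMod (l ^ m.factorization l)) := by
  conv_lhs => rw [← ZMod.natCast_zmod_val y, map_natCast]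

theorem equivPi_eq (hm : m ≠ 0) (y : ZMod m) (l : m.primeFactors) :
    ZMod.equivPi m hm y l = comp m l y :=
  DFunLike.congr_fun (RingHom.ext_zmod ((Pi.evalRingHom
    (fun l : m.primeFactors => ZMod ((l : ℕ) ^ m.factorization l)) l).comp
      (ZMod.equivPi m hm).toRingHom) (comp m l)) y

theorem crt_inj [NeZero m] {y y' : ZMod m}
    (h : ∀ l : m.primeFactors, comp m l y = comp m l y') : y = y' :=
  (ZMod.equivPi m (NeZero.ne m)).injective (funext fun l => by rw [equivPi_eq, equivPi_eq, h])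

theorem crt_surj [NeZero m] (c : ∀ l : m.primeFactors, ZMod ((l : ℕ) ^ m.factorization l)) :
    ∃ y : ZMod m, ∀ l : m.primeFactors, comp m l y = c l := by
  obtain ⟨y, hy⟩ := (ZMod.equivPi m (NeZero.ne m)).surjective c
  exact ⟨y, fun l => by rw [← equivPi_eq (NeZero.ne m), hy]⟩

theorem isUnit_comp {l l' : m.primeFactors} (h : l ≠ l') :
    IsUnit ((l : ℕ) : ZMod ((l' : ℕ) ^ m.factorization l')) := by
  rw [ZMod.isUnit_iff_coprime]
  exact ((Nat.coprime_primes (Nat.prime_of_mem_primeFactors l.2)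
    (Nat.prime_of_mem_primeFactors l'.2)).2 fun h' => h (Subtype.ext h')).pow_right _

theorem dvd_of_not_isUnit {l v : ℕ} (hl : l.Prime) (a : ℕ) (h : ¬ IsUnit (a : ZMod (l ^ v))) :
    l ∣ a := by
  by_contra h'
  exact h ((ZMod.isUnit_iff_coprime _ _).2
    (((Nat.Prime.coprime_iff_not_dvd hl).2 h').symm.pow_right _))

theorem fact_pos [NeZero m] (l : m.primeFactors) : 0 < m.factorization l :=
  (Nat.prime_of_mem_primeFactors l.2).factorization_pos_of_dvd (NeZero.ne m)
    (Nat.dvd_of_mem_primeFactors l.2)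

theorem nontrivial_comp [NeZero m] (l : m.primeFactors) :
    Nontrivial (ZMod ((l : ℕ) ^ m.factorization l)) :=
  ZMod.nontrivial_iff.2
    (Nat.one_lt_pow (fact_pos l).ne' (Nat.prime_of_mem_primeFactors l.2).one_lt).ne'

variable [NeZero m] {p : ℕ} {M : Type*} [AddCommGroup M] {E : ZMod m → M}

theorem hd_pow (hE : IsDist m p E) {l : ℕ} (hl : l.Prime) (i : ℕ) (hi : l ^ i ∣ m) (x : ZMod m)
    (hx : (l : ZMod m) ^ i * x ≠ 0) :
    ∑ y with (l : ZMod m) ^ i * y = (l : ZMod m) ^ i * x, E y = E ((l : ZMod m) ^ i * x) := by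
  induction i generalizing x with
  | zero => simp [filter_eq']
  | succ i ih =>
    have hx' : (l : ZMod m) * ((l : ZMod m) ^ i * x) ≠ 0 := by rwa [← mul_assoc, ← pow_succ']
    rw [pow_succ' _ i, mul_assoc, ← hE.hd l hl ((dvd_pow_self l i.succ_ne_zero).trans hi) _ hx',
      ← sum_fiberwise_of_maps_to (g := fun y => (l : ZMod m) ^ i * y)
        (t := univ.filter fun w => (l : ZMod m) * w = l * ((l : ZMod m) ^ i * x))
        fun y hy => by simpa [mul_assoc] using hy]
    refine sum_congr rfl fun w hw => ?_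
    have hw' := (mem_filter.1 hw).2
    obtain ⟨c, hc⟩ : l ^ i ∣ (w - (l : ZMod m) ^ i * x).val := by
      have h1 : ((l * (w - (l : ZMod m) ^ i * x).val : ℕ) : ZMod m) = 0 := by
        rw [Nat.cast_mul, ZMod.natCast_zmod_val, mul_sub, hw', sub_self]
      rw [ZMod.natCast_eq_zero_iff] at h1
      have h2 := hi.trans h1
      rw [pow_succ'] at h2
      exact Nat.dvd_of_mul_dvd_mul_left hl.pos h2
    have h3 : w = (l : ZMod m) ^ i * (x + c) := by
      have := congrArg (Nat.cast : ℕ → ZMod m) hc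
      rw [ZMod.natCast_zmod_val] at this
      push_cast at this
      linear_combination this
    have h4 := ih ((pow_dvd_pow l i.le_succ).trans hi) (x + c) (by
      rw [← h3]
      rintro rfl
      exact hx' (by rw [← hw', mul_zero]))
    rw [← h3] at h4
    rw [← h4]
    refine sum_congr ?_ fun _ _ => rfl
    ext y
    simp only [mem_filter, mem_univ, true_and, and_iff_right_iff_imp]
    intro h
    rw [mul_assoc, h, hw']

theorem IsDist.frob_pow (hE : IsDist m p E) (j : ℕ) (x : ZMod m) :
    E ((p : ZMod m) ^ j * x) = E x := by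
  induction j with
  | zero => simp
  | succ j ih => rw [pow_succ', mul_assoc, hE.frob, ih]

/-- all components are zero or units, and the anchor component is a unit. -/
def Red (l0 : m.primeFactors) (y : ZMod m) : Prop :=
  IsUnit (comp m l0 y) ∧ ∀ l : m.primeFactors, comp m l y = 0 ∨ IsUnit (comp m l y)

omit [NeZero m] in
theorem Red.mul {l0 : m.primeFactors} {y : ZMod m} (h : Red l0 y) {u : ZMod m} (hu : IsUnit u) :
    Red l0 (u * y) ∧ ∀ l : m.primeFactors, comp m l (u * y) ≠ 0 ↔ comp m l y ≠ 0 := by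
  refine ⟨⟨by rw [map_mul]; exact (hu.map _).mul h.1, fun l => ?_⟩, fun l => ?_⟩
  · rw [map_mul]
    exact (h.2 l).imp (fun h' => by rw [h', mul_zero]) fun h' => (hu.map _).mul h'
  · rw [map_mul, Ne, (hu.map _).mul_right_eq_zero]

theorem kubert (hE : IsDist m p E) (hpu : IsUnit (p : ZMod m)) (l0 : m.primeFactors)
    (R : Set (ZMod ((l0 : ℕ) ^ m.factorization l0)))
    (hR : ∀ c, ∃ j : ℕ, (p : ZMod _) ^ j * c ∈ R ∨ -((p : ZMod _) ^ j * c) ∈ R)
    (T : Submodule ℤ M) (hT : ∀ y, Red l0 y → comp m l0 y ∈ R →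
      (∀ l : m.primeFactors, l ≠ l0 → comp m l y ≠ 1) → E y ∈ T) (y : ZMod m) (hy : Red l0 y) :
    E y ∈ T := by
  classical
  induction hs : (univ.filter fun l : m.primeFactors => comp m l y ≠ 0).card
    using Nat.strong_induction_on generalizing y with
  | _ s ih =>
  have inner : ∀ (b : ℕ) (y : ZMod m), Red l0 y →
      (univ.filter fun l : m.primeFactors => comp m l y ≠ 0).card = s → comp m l0 y ∈ R →
      (univ.filter fun l : m.primeFactors => l ≠ l0 ∧ comp m l y = 1).card = b → E y ∈ T := by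
    intro b
    induction b with
    | zero =>
      intro y hy _ h2 h3
      refine hT y hy h2 fun l hl h => ?_
      exact (card_ne_zero.2 ⟨l, mem_filter.2 ⟨mem_univ _, hl, h⟩⟩) h3
    | succ b ihb =>
      intro y hy h1 h2 h3
      obtain ⟨l, hl⟩ := card_pos.1 (b.succ_pos.trans_eq h3.symm)
      obtain ⟨hl0, hl1⟩ := (mem_filter.1 hl).2
      have hlp := Nat.prime_of_mem_primeFactors l.2
      have := nontrivial_comp l
      have := nontrivial_comp l0
      obtain ⟨y0, hy0⟩ := crt_surj (Function.update (fun l' : m.primeFactors => comp m l' y) l 0)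
      have e0 : comp m l y0 = 0 := by rw [hy0, Function.update_self]
      have e1 : ∀ l' : m.primeFactors, l' ≠ l → comp m l' y0 = comp m l' y := fun l' h => by
        rw [hy0, Function.update_of_ne h]
      have hu : ∀ (i : ℕ) (l' : m.primeFactors), l' ≠ l →
          IsUnit (comp m l' (((l : ℕ) : ZMod m) ^ i)) := fun i l' h => by
        rw [map_pow, map_natCast]; exact (isUnit_comp h.symm).pow i
      have h4 : ∀ i : ℕ, ((l : ℕ) : ZMod m) ^ i * y0 ≠ 0 ∧ E (((l : ℕ) : ZMod m) ^ i * y0) ∈ T := by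
        intro i
        have r1 : IsUnit (comp m l0 (((l : ℕ) : ZMod m) ^ i * y0)) := by
          rw [map_mul, e1 l0 hl0.symm]; exact (hu i l0 hl0.symm).mul hy.1
        refine ⟨fun h => ?_, ih _ ?_ _ ⟨r1, fun l' => ?_⟩ rfl⟩
        · rw [h, map_zero] at r1
          exact not_isUnit_zero r1
        · rw [← h1]
          refine card_lt_card ⟨fun l' hl' => ?_, fun h => ?_⟩
          · have := (mem_filter.1 hl').2
            refine mem_filter.2 ⟨mem_univ _, fun h => this ?_⟩
            rcases eq_or_ne l' l with rfl | h'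
            · rw [map_mul, e0, mul_zero]
            · rw [map_mul, e1 l' h', h, mul_zero]
          · have := (mem_filter.1 (h (mem_filter.2 ⟨mem_univ l, hl1 ▸ one_ne_zero⟩))).2
            exact this (by rw [map_mul, e0, mul_zero])
        · rcases eq_or_ne l' l with rfl | h'
          · left; rw [map_mul, e0, mul_zero]
          · rw [map_mul, e1 l' h']
            exact (hy.2 l').imp (fun h => by rw [h, mul_zero]) fun h => (hu i l' h').mul h
      obtain ⟨v, hv⟩ : ∃ v, m.factorization l = v + 1 := ⟨_, (Nat.sub_add_cancel (fact_pos l)).symm⟩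
      have hz : comp m l (((l : ℕ) : ZMod m) ^ (v + 1)) = 0 := by
        rw [map_pow, map_natCast, ← Nat.cast_pow, ← hv, ZMod.natCast_self]
      have hnz : comp m l (((l : ℕ) : ZMod m) ^ v) ≠ 0 := by
        rw [map_pow, map_natCast, ← Nat.cast_pow, Ne, ZMod.natCast_eq_zero_iff, hv,
          Nat.pow_dvd_pow_iff_le_right hlp.one_lt]
        omega
      have hd1 : (l : ℕ) ^ (v + 1) ∣ m := hv ▸ Nat.ordProj_dvd m l
      have s1 := hd_pow hE hlp (v + 1) hd1 y0 (h4 _).1
      have s2 := hd_pow hE hlp v ((pow_dvd_pow _ v.le_succ).trans hd1) y0 (h4 _).1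
      have hsub : (univ.filter fun y => ((l : ℕ) : ZMod m) ^ v * y = ((l : ℕ) : ZMod m) ^ v * y0)
          ⊆ univ.filter fun y =>
            ((l : ℕ) : ZMod m) ^ (v + 1) * y = ((l : ℕ) : ZMod m) ^ (v + 1) * y0 := by
        intro y' hy'
        refine mem_filter.2 ⟨mem_univ _, ?_⟩
        rw [pow_succ', mul_assoc, (mem_filter.1 hy').2, mul_assoc]
      have hmem : y ∈ (univ.filter fun y =>
            ((l : ℕ) : ZMod m) ^ (v + 1) * y = ((l : ℕ) : ZMod m) ^ (v + 1) * y0) \
          (univ.filter fun y => ((l : ℕ) : ZMod m) ^ v * y = ((l : ℕ) : ZMod m) ^ v * y0) := by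
        refine mem_sdiff.2 ⟨mem_filter.2 ⟨mem_univ _, crt_inj fun l' => ?_⟩, fun h => hnz ?_⟩
        · rcases eq_or_ne l' l with rfl | h'
          · rw [map_mul, map_mul, hz, zero_mul, zero_mul]
          · rw [map_mul, map_mul, e1 l' h']
        · have := congrArg (comp m l) (mem_filter.1 h).2
          rwa [map_mul, map_mul, hl1, e0, mul_one, mul_zero] at this
      rw [← sum_sdiff hsub, s2, ← add_sum_erase _ _ hmem, add_assoc, ← eq_sub_iff_add_eq] at s1
      rw [s1]
      refine T.sub_mem (h4 _).2 (T.add_mem (T.sum_mem fun y' hy' => ?_) (h4 _).2)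
      have n1 := ne_of_mem_erase hy'
      obtain ⟨n2, n3⟩ := mem_sdiff.1 (mem_of_mem_erase hy')
      have e2 : ∀ l' : m.primeFactors, l' ≠ l → comp m l' y' = comp m l' y := fun l' h => by
        have := congrArg (comp m l') (mem_filter.1 n2).2
        rwa [map_mul, map_mul, (hu _ l' h).mul_right_inj, e1 l' h] at this
      have e3 : IsUnit (comp m l y') := by
        by_contra h
        rw [comp_val] at h
        obtain ⟨c, hc⟩ := dvd_of_not_isUnit hlp _ h
        refine n3 (mem_filter.2 ⟨mem_univ _, crt_inj fun l' => ?_⟩)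
        rcases eq_or_ne l' l with rfl | h'
        · rw [← ZMod.natCast_zmod_val y', hc, Nat.cast_mul, ← mul_assoc, ← pow_succ, map_mul, hz,
            map_mul, e0, zero_mul, mul_zero]
        · rw [map_mul, map_mul, e2 l' h', e1 l' h']
      have e4 : comp m l y' ≠ 1 := fun h => n1 (crt_inj fun l' => by
        rcases eq_or_ne l' l with rfl | h'
        · rw [h, hl1]
        · exact e2 l' h')
      refine ihb y' ⟨e2 l0 hl0.symm ▸ hy.1, fun l' => ?_⟩ ?_ (e2 l0 hl0.symm ▸ h2) ?_
      · rcases eq_or_ne l' l with rfl | h'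
        · exact Or.inr e3
        · rw [e2 l' h']; exact hy.2 l'
      · rw [← h1]
        congr 1
        refine filter_congr fun l' _ => ?_
        rcases eq_or_ne l' l with rfl | h'
        · exact iff_of_true e3.ne_zero (hl1 ▸ one_ne_zero)
        · rw [e2 l' h']
      · have : (univ.filter fun l' : m.primeFactors => l' ≠ l0 ∧ comp m l' y' = 1)
            = (univ.filter fun l' : m.primeFactors => l' ≠ l0 ∧ comp m l' y = 1).erase l := by
          ext l'
          rcases eq_or_ne l' l with rfl | h'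
          · simp [e4]
          · simp [h', e2 l' h']
        rw [this, card_erase_of_mem hl, h3]
        rfl
  obtain ⟨j, hj⟩ := hR (comp m l0 y)
  rcases hj with hj | hj
  · obtain ⟨r1, r2⟩ := hy.mul (hpu.pow j)
    rw [← hE.frob_pow j]
    refine inner _ _ r1 (hs ▸ congrArg card (filter_congr fun l _ => r2 l)) ?_ rfl
    rwa [map_mul, map_pow, map_natCast]
  · obtain ⟨r1, r2⟩ := hy.mul (hpu.pow j).neg
    rw [← hE.frob_pow j, ← neg_neg (E _), ← hE.neg, ← neg_mul]
    refine T.neg_mem (inner _ _ r1 (hs ▸ congrArg card (filter_congr fun l _ => r2 l)) ?_ rfl)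
    rwa [neg_mul, map_neg, map_mul, map_pow, map_natCast]

theorem go_up (hE : IsDist m p E) (l0 : m.primeFactors) (T : Submodule ℤ M)
    (hT : ∀ y, Red l0 y → E y ∈ T) (x : ZMod m) (hx : comp m l0 x ≠ 0) : E x ∈ T := by
  induction hk : m - addOrderOf x using Nat.strong_induction_on generalizing x with
  | _ k ih =>
  by_cases h : ∀ l : m.primeFactors, comp m l x = 0 ∨ IsUnit (comp m l x)
  · exact hT x ⟨(h l0).resolve_left hx, h⟩
  push Not at h
  obtain ⟨⟨l, hlm⟩, h1, h2⟩ := h
  have hl := Nat.prime_of_mem_primeFactors hlm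
  set d := addOrderOf x with hd
  have hd0 : 0 < d := addOrderOf_pos x
  have hl' : l ∣ d := by
    refine dvd_of_not_isUnit (v := m.factorization l) hl d fun hu => h1 ?_
    have : (d : ZMod m) * x = 0 := by rw [← nsmul_eq_mul, hd, addOrderOf_nsmul_eq_zero]
    have := congrArg (comp m l) this
    rwa [map_mul, map_natCast, map_zero, hu.mul_right_eq_zero] at this
  rw [comp_val] at h2
  obtain ⟨a, ha⟩ := dvd_of_not_isUnit hl _ h2
  have hxa : x = (l : ZMod m) * a := by rw [← Nat.cast_mul, ← ha, ZMod.natCast_zmod_val]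
  have hx0 : x ≠ 0 := by rintro rfl; exact hx (map_zero _)
  have h3 := hE.hd l hl (Nat.dvd_of_mem_primeFactors hlm) a (hxa ▸ hx0)
  rw [← hxa] at h3
  rw [← h3]
  refine T.sum_mem fun y hy => ?_
  have hy0 := (mem_filter.1 hy).2
  have hy' : l • y = x := by rw [nsmul_eq_mul]; exact hy0
  have h4 : d = addOrderOf y / (addOrderOf y).gcd l := by rw [hd, ← hy', addOrderOf_nsmul]
  have h5 : addOrderOf y = l * d := by
    rcases (Nat.dvd_prime hl).1 (Nat.gcd_dvd_right (addOrderOf y) l) with h | h
    · rw [h, Nat.div_one] at h4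
      have : l ∣ (addOrderOf y).gcd l := Nat.dvd_gcd (h4 ▸ hl') dvd_rfl
      rw [h, Nat.dvd_one] at this
      exact absurd this hl.one_lt.ne'
    · rw [h4, h, Nat.mul_div_cancel' (h ▸ Nat.gcd_dvd_left (addOrderOf y) l)]
  refine ih (m - addOrderOf y) ?_ y (fun h => hx ?_) rfl
  · have h6 : addOrderOf y ≤ m :=
      Nat.le_of_dvd (NeZero.pos m) (addOrderOf_dvd_of_nsmul_eq_zero (by simp))
    have h7 : d < l * d := by have := hl.two_le; nlinarith
    omega
  · rw [← hy0, map_mul, h, mul_zero]

end Pool.Agent.Lib.MP_60ec62_ag
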