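import Mathlib
import Pool.Agent.Lib.MP_60ec62_ag.Anchor

/-!
Universality of the Stickelberger distribution when the group generated by `p` and `-1` acts
freely at an anchor prime and the classes away from the anchor are pure.
-/

namespace Pool.Agent.Lib.MP_60ec62_ag

open Finset

section

variable {n p : ℕ} [NeZero n]

theorem char_vanish_cond (f : ℕ) (hf : 0 < f)
    (P : (ZMod n)ˣ) (hP : (P : ZMod n) = p) (c : (ZMod n)ˣ → ℤ)
    (hc : ∀ t : (ZMod n)ˣ, ∑ u : (ZMod n)ˣ, c u * ∑ j ∈ range f, B ((t : ZMod n) * (p : ZMod n) ^ j * (u : ZMod n)) = 0)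
    (χ : DirichletCharacter ℂ n) (hodd : χ.Odd) (hχ : χ P = 1)
    (hcond : ∀ l : ℕ, l.Prime → l ∣ n → l ∣ χ.conductor) :
    ∑ u, (c u : ℂ) * χ (u⁻¹ : (ZMod n)ˣ) = 0 := by
  have hne : χ ≠ 1 := by
    rintro rfl
    have : (1 : DirichletCharacter ℂ n) (-1) = -1 := hodd
    rw [MulChar.one_apply isUnit_one.neg] at this
    norm_num at this
  have hn1 : n ≠ 1 := by
    rintro rfl
    exact hne (DirichletCharacter.level_one χ)
  have : Nontrivial (ZMod n) := ZMod.nontrivial_iff.2 hn1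
  have hβ : ∑ v : (ZMod n)ˣ, χ v * (B (v : ZMod n) : ℂ) ≠ 0 := by
    have h1 : ∑ v : (ZMod n)ˣ, χ v * (B (v : ZMod n) : ℂ)
        = ∑ y : ZMod n, (2 * (χ y * (y.val : ℂ)) - n * χ y) := by
      refine sum_of_injOn Units.val Units.val_injective.injOn (fun _ _ => mem_coe.2 (mem_univ _))
        (fun y _ hy => ?_) fun v _ => ?_
      · rw [χ.map_nonunit (a := y) fun ⟨v, hv⟩ => hy ⟨v, mem_coe.2 (mem_univ _), hv⟩]
        simp
      · rw [B, if_neg v.ne_zero]
        push_cast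
        ring
    rw [h1, sum_sub_distrib, ← mul_sum, ← mul_sum, χ.sum_eq_zero_of_ne_one hne, mul_zero, sub_zero]
    exact mul_ne_zero two_ne_zero
      (Pool.Agent.Shared.BernoulliOne.sum_mul_val_ne_zero χ hodd hcond)
  have h1 : ∑ t : (ZMod n)ˣ, χ t *
      ((∑ u : (ZMod n)ˣ, c u * ∑ j ∈ range f, B ((t : ZMod n) * (p : ZMod n) ^ j * (u : ZMod n)) : ℤ) : ℂ) = 0 := by
    simp [hc]
  have h2 : ∀ (u : (ZMod n)ˣ) (j : ℕ), ∑ t : (ZMod n)ˣ, χ t * (B ((t : ZMod n) * (p : ZMod n) ^ j * (u : ZMod n)) : ℂ)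
      = χ (u⁻¹ : (ZMod n)ˣ) * ∑ v : (ZMod n)ˣ, χ v * (B (v : ZMod n) : ℂ) := by
    intro u j
    rw [mul_sum]
    refine Fintype.sum_bijective _ (Group.mulRight_bijective (P ^ j * u)) _ _ fun t => ?_
    simp only [Units.val_mul, Units.val_pow_eq_pow_val, map_mul, map_pow, hχ, one_pow, one_mul]
    rw [hP, mul_assoc (t : ZMod n)]
    have : χ (u⁻¹ : (ZMod n)ˣ) * χ u = 1 := by rw [← map_mul, Units.inv_mul, map_one]
    linear_combination (-(χ t * (B ((t : ZMod n) * ((p : ZMod n) ^ j * (u : ZMod n))) : ℂ))) * this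
  push_cast at h1
  simp only [mul_sum] at h1
  rw [sum_comm] at h1
  have h3 : ∀ u : (ZMod n)ˣ, ∑ t : (ZMod n)ˣ, ∑ j ∈ range f,
      χ t * ((c u : ℂ) * (B ((t : ZMod n) * (p : ZMod n) ^ j * (u : ZMod n)) : ℂ))
      = (c u : ℂ) * χ (u⁻¹ : (ZMod n)ˣ) * (f * ∑ v : (ZMod n)ˣ, χ v * (B (v : ZMod n) : ℂ)) := by
    intro u
    rw [sum_comm]
    simp only [mul_left_comm (χ _) (c u : ℂ), ← mul_sum, h2, sum_const, card_range, nsmul_eq_mul]
    ring
  simp only [h3, ← sum_mul] at h1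
  exact (mul_eq_zero.1 h1).resolve_right (mul_ne_zero (Nat.cast_ne_zero.2 hf.ne') hβ)

theorem step2_aux' (P : (ZMod n)ˣ) (c : (ZMod n)ˣ → ℤ)
    (hc : ∀ χ : DirichletCharacter ℂ n, χ.Odd → χ P = 1 →
      ∑ u, (c u : ℂ) * χ (u⁻¹ : (ZMod n)ˣ) = 0)
    {M : Type*} [AddCommGroup M] (E : (ZMod n)ˣ → M) (h1 : ∀ u, E (-u) = -E u)
    {K : Type*} [CommGroup K] [Fintype K] (π : (ZMod n)ˣ →* K) (hs : Function.Surjective π)
    (hπ : ∀ u v, π u = π v → E u = E v) (hπP : π P = 1) (hH : π (-1) ≠ 1) :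
    ∑ u, c u • E u = 0 := by
  classical
  choose σ hσ using hs
  let C : K → ℤ := fun k => ∑ u with π u = k, c u
  have hπ1 : π (-1) * π (-1) = 1 := by rw [← map_mul]; simp
  have hC : ∀ k, C (π (-1) * k) = C k := by
    intro k
    have := eq_zero_of_fourier (fun k => (C (π (-1) * k) : ℂ) - C k) (fun φ => ?_) k
    · exact_mod_cast sub_eq_zero.1 this
    have e1 : ∑ k, φ k * (C (π (-1) * k) : ℂ) = φ (π (-1)) * ∑ k, φ k * C k := by
      rw [mul_sum]
      refine Fintype.sum_bijective _ (Group.mulLeft_bijective (π (-1))) _ _ fun k => ?_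
      rw [← mul_assoc, ← map_mul, ← mul_assoc, hπ1, one_mul]
    simp only [mul_sub, sum_sub_distrib, e1]
    have e2 : φ (π (-1)) * φ (π (-1)) = 1 := by rw [← map_mul, hπ1, map_one]
    rcases mul_self_eq_one_iff.1 e2 with h | h
    · rw [h, one_mul, sub_self]
    have e3 : ∑ k, φ k * C k = 0 := by
      let χ : DirichletCharacter ℂ n := MulChar.ofUnitHom (φ.toHomUnits.comp π)⁻¹
      have hχ : ∀ u : (ZMod n)ˣ, χ (u⁻¹ : (ZMod n)ˣ) = φ (π u) := by
        intro u
        rw [MulChar.ofUnitHom_coe]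
        simp
      have := hc χ ?_ ?_
      · rw [← this, ← sum_fiberwise univ π]
        refine sum_congr rfl fun k _ => ?_
        simp only [C, Int.cast_sum, mul_sum]
        refine sum_congr rfl fun u hu => ?_
        rw [hχ, (mem_filter.1 hu).2, mul_comm]
      · have := hχ (-1)
        rw [h, inv_neg_one] at this
        exact this
      · have := hχ P⁻¹
        rw [inv_inv] at this
        rw [this, map_inv, hπP, inv_one, map_one]
    rw [e3, mul_zero, sub_self]
  have e4 : ∑ u, c u • E u = ∑ k, C k • E (σ k) := by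
    rw [← sum_fiberwise univ π]
    refine sum_congr rfl fun k _ => ?_
    simp only [C, sum_smul]
    refine sum_congr rfl fun u hu => ?_
    rw [hπ u (σ k) (by rw [(mem_filter.1 hu).2, hσ])]
  rw [e4]
  refine sum_involution (fun k _ => π (-1) * k) (fun k _ => ?_) (fun k _ _ h => ?_)
    (fun _ _ => mem_univ _) fun k _ => ?_
  · rw [hC, hπ (σ (π (-1) * k)) (-σ k), h1, smul_neg, add_neg_cancel]
    rw [← neg_one_mul (σ k), map_mul, hσ, hσ]
  · exact hH (mul_eq_right.1 h)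
  · rw [← mul_assoc, hπ1, one_mul]

theorem step2' (P : (ZMod n)ˣ) (c : (ZMod n)ˣ → ℤ)
    (hc : ∀ χ : DirichletCharacter ℂ n, χ.Odd → χ P = 1 →
      ∑ u, (c u : ℂ) * χ (u⁻¹ : (ZMod n)ˣ) = 0)
    (hH : (-1 : (ZMod n)ˣ) ∉ Subgroup.zpowers P)
    {M : Type*} [AddCommGroup M] (E : (ZMod n)ˣ → M) (h1 : ∀ u, E (-u) = -E u)
    (h2 : ∀ u, E (P * u) = E u) : ∑ u, c u • E u = 0 := by
  classical
  have h4 : QuotientGroup.mk' (Subgroup.zpowers P) (-1) ≠ 1 :=
    fun h => hH ((QuotientGroup.eq_one_iff _).1 h)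
  have h5 : QuotientGroup.mk' (Subgroup.zpowers P) P = 1 :=
    (QuotientGroup.eq_one_iff _).2 (Subgroup.mem_zpowers P)
  refine step2_aux' P c hc E h1 (K := (ZMod n)ˣ ⧸ Subgroup.zpowers P)
    (QuotientGroup.mk' (Subgroup.zpowers P)) (QuotientGroup.mk'_surjective _) ?_ h5 h4
  intro u v huv
  obtain ⟨z, hz, rfl⟩ := (QuotientGroup.mk'_eq_mk' _).1 huv
  obtain ⟨j, rfl⟩ := mem_powers_iff_mem_zpowers.2 hz
  clear hz huv
  induction j with
  | zero => simp
  | succ j ih =>
    simp only at ih ⊢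
    rw [ih, pow_succ', mul_left_comm, h2]

theorem fourier_zero (f : ℕ) (hf : 0 < f) (P : (ZMod n)ˣ) (hP : (P : ZMod n) = p)
    (c : (ZMod n)ˣ → ℤ) (hc : ∀ x : ZMod n, ∑ u : (ZMod n)ˣ, c u *
      ∑ j ∈ range f, B ((u : ZMod n) * (p : ZMod n) ^ j * x) = 0)
    (χ : DirichletCharacter ℂ n) (hodd : χ.Odd) (hχ : χ P = 1) :
    ∑ u, (c u : ℂ) * χ (u⁻¹ : (ZMod n)ˣ) = 0 := by
  classical
  have : NeZero χ.conductor := ⟨χ.conductor_ne_zero⟩
  have hd := χ.conductor_dvd_level
  obtain ⟨g, hg⟩ : ∃ g, n = g * χ.conductor := ⟨n / χ.conductor, (Nat.div_mul_cancel hd).symm⟩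
  have hg0 : 0 < g := Nat.pos_of_dvd_of_pos ⟨_, hg⟩ (NeZero.pos n)
  have e0 : ∀ u : (ZMod n)ˣ, χ u = χ.primitiveCharacter (ZMod.unitsMap hd u) := by
    intro u
    have := DirichletCharacter.changeLevel_eq_cast_of_dvd χ.primitiveCharacter hd u
    rwa [DirichletCharacter.changeLevel_primitiveCharacter] at this
  have h1 := char_vanish_cond (p := p) f hf (ZMod.unitsMap hd P)
    (by rw [ZMod.unitsMap_val, hP, ZMod.cast_natCast hd])
    (fun w => ∑ u with ZMod.unitsMap hd u = w, c u) (fun t => ?_) χ.primitiveCharacter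
    (by
      have := e0 (-1)
      rw [show ZMod.unitsMap hd (-1) = -1 from Units.ext (by
        rw [ZMod.unitsMap_val, Units.val_neg, Units.val_one, ZMod.cast_neg hd, ZMod.cast_one hd]
        rfl)] at this
      exact this.symm.trans hodd)
    ((e0 P).symm.trans hχ) fun l _ hl => by
      rwa [(DirichletCharacter.isPrimitive_def _).1 χ.primitiveCharacter_isPrimitive]
  · rw [← h1, ← sum_fiberwise univ (ZMod.unitsMap hd)]
    refine sum_congr rfl fun w _ => ?_
    rw [Int.cast_sum, sum_mul]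
    refine sum_congr rfl fun u hu => ?_
    rw [e0, map_inv, (mem_filter.1 hu).2]
  · have h2 := hc (up n g (t : ZMod χ.conductor))
    have e1 : ∀ (u : (ZMod n)ˣ) (j : ℕ), (u : ZMod n) * (p : ZMod n) ^ j * up n g
        (t : ZMod χ.conductor) = up n g ((t : ZMod χ.conductor) * (p : ZMod χ.conductor) ^ j *
          (ZMod.unitsMap hd u : ZMod χ.conductor)) := by
      intro u j
      rw [mul_comm (t : ZMod χ.conductor), mul_right_comm _ (t : ZMod χ.conductor),
        ZMod.unitsMap_val, ZMod.cast_eq_val, ← Nat.cast_pow, ← Nat.cast_pow, ← Nat.cast_mul,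
        up_mul hg, Nat.cast_mul, ZMod.natCast_zmod_val, mul_comm (u : ZMod n)]
    simp only [e1, B_up hg, ← mul_sum, mul_left_comm _ (g : ℤ)] at h2
    rw [← (mul_eq_zero.1 h2).resolve_left (Nat.cast_ne_zero.2 hg0.ne'),
      ← sum_fiberwise univ (ZMod.unitsMap hd)]
    refine sum_congr rfl fun w _ => ?_
    rw [sum_mul]
    refine sum_congr rfl fun u hu => ?_
    rw [(mem_filter.1 hu).2]

end

variable {m : ℕ} [NeZero m]

theorem isUnit_of_comp {y : ZMod m} (h : ∀ l : m.primeFactors, IsUnit (comp m l y)) :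
    IsUnit y := by
  have : IsUnit (ZMod.equivPi m (NeZero.ne m) y) :=
    Pi.isUnit_iff.2 fun l => by rw [equivPi_eq]; exact h l
  simpa using this.map (ZMod.equivPi m (NeZero.ne m)).symm

/-- The Stickelberger distribution is universal when `⟨p, -1⟩` acts freely at the anchor `l0`. -/
theorem universal_anchor (p f : ℕ) (hf : 0 < f) (hp : (p : ZMod m) ^ f = 1) (l0 : m.primeFactors)
    (hpure : ∀ x : ZMod m, comp m l0 x = 0 → ∃ j : ℕ, (p : ZMod m) ^ j * x = -x)
    (hF1 : ∀ j : ℕ, (p : ZMod ((l0 : ℕ) ^ m.factorization l0)) ^ j = 1 → (p : ZMod m) ^ j = 1)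
    (hF2 : ∀ j : ℕ, (p : ZMod ((l0 : ℕ) ^ m.factorization l0)) ^ j ≠ -1)
    {M : Type*} [AddCommGroup M] {E : ZMod m → M} (hE : IsDist m p E) {I : Type*} (s : Finset I)
    (a : I → ZMod m)
    (ha : ∀ t : (ZMod m)ˣ, ∑ i ∈ s, ∑ j ∈ range f, B ((t : ZMod m) * (p : ZMod m) ^ j * a i) = 0) :
    ∑ i ∈ s, E (a i) = 0 := by
  classical
  have hpu := IsUnit.of_pow_eq_one hp hf.ne'
  have hp0 : (p : ZMod ((l0 : ℕ) ^ m.factorization l0)) ^ f = 1 := by
    have := congrArg (comp m l0) hp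
    rwa [map_pow, map_natCast, map_one] at this
  let σ : Setoid (ZMod ((l0 : ℕ) ^ m.factorization l0)) :=
    { r := fun c c' => ∃ j : ℕ, c' = (p : ZMod _) ^ j * c ∨ c' = -((p : ZMod _) ^ j * c)
      iseqv := ⟨fun c => ⟨0, Or.inl (by simp)⟩, by
        rintro c c' ⟨j, h⟩
        have e : (p : ZMod ((l0 : ℕ) ^ m.factorization l0)) ^ (j * (f - 1)) * p ^ j = 1 := by
          rw [← pow_add, ← mul_add_one, show f - 1 + 1 = f by omega, mul_comm, pow_mul, hp0, one_pow]
        refine ⟨j * (f - 1), h.imp ?_ ?_⟩ <;> rintro rfl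
        · rw [← mul_assoc, e, one_mul]
        · rw [mul_neg, neg_neg, ← mul_assoc, e, one_mul], by
        rintro c c' c'' ⟨j, h⟩ ⟨j', h'⟩
        refine ⟨j' + j, ?_⟩
        rcases h with rfl | rfl <;> rcases h' with rfl | rfl
        · left; ring
        · right; ring
        · right; ring
        · left; ring⟩ }
  let R : Set (ZMod ((l0 : ℕ) ^ m.factorization l0)) := {c | (Quotient.mk σ c).out = c}
  have hR : ∀ c, ∃ j : ℕ, (p : ZMod _) ^ j * c ∈ R ∨ -((p : ZMod _) ^ j * c) ∈ R := by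
    intro c
    have h1 : (Quotient.mk σ c).out ∈ R := by
      change (Quotient.mk σ (Quotient.mk σ c).out).out = _
      rw [Quotient.out_eq]
    obtain ⟨j, hj⟩ := σ.symm (Quotient.mk_out (s := σ) c)
    refine ⟨j, ?_⟩
    rcases hj with h | h
    · left; rwa [← h]
    · right; rwa [← h]
  have hR2 : ∀ c ∈ R, ∀ c' ∈ R, σ c c' → c = c' := fun c hc c' hc' h =>
    hc.symm.trans ((congrArg Quotient.out (Quotient.sound h)).trans hc')
  let J := {y : ZMod m // Red l0 y ∧ comp m l0 y ∈ R ∧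
    ∀ l : m.primeFactors, l ≠ l0 → comp m l y ≠ 1}
  have hspan : ∀ {N : Type} [AddCommGroup N] (D : ZMod m → N), IsDist m p D →
      ∀ T : Submodule ℤ N, (∀ b : J, D b.1 ∈ T) → ∀ x, D x ∈ T := by
    intro N _ D hD T hT x
    by_cases hx : comp m l0 x = 0
    · rw [hD.pure x (hpure x hx)]; exact T.zero_mem
    · exact go_up hD l0 T (kubert hD hpu l0 R hR T fun y h1 h2 h3 => hT ⟨y, h1, h2, h3⟩) x hx
  have hι : ∀ b : J, ∃ u : (ZMod m)ˣ, ∀ l : m.primeFactors,
      comp m l u = if comp m l b.1 = 0 then 1 else comp m l b.1 := by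
    intro b
    obtain ⟨y, hy⟩ := crt_surj fun l : m.primeFactors =>
      if comp m l b.1 = 0 then 1 else comp m l b.1
    obtain ⟨u, rfl⟩ : IsUnit y := isUnit_of_comp fun l => by
      rw [hy]
      split_ifs with h
      · exact isUnit_one
      · exact (b.2.1.2 l).resolve_left h
    exact ⟨u, hy⟩
  choose ι hι using hι
  have := nontrivial_comp l0
  have hι0 : ∀ b : J, comp m l0 (ι b) = comp m l0 b.1 := fun b => by
    rw [hι, if_neg b.2.1.1.ne_zero]
  have hιinj : ∀ b b' : J, ι b = ι b' → b = b' := by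
    intro b b' h
    refine Subtype.ext (crt_inj fun l => ?_)
    rcases eq_or_ne l l0 with rfl | hl
    · rw [← hι0, ← hι0, h]
    · have h1 := hι b l
      rw [h, hι] at h1
      split_ifs at h1 with h2 h3 h3
      · rw [h2, h3]
      · exact absurd h1.symm (b.2.2.2 l hl)
      · exact absurd h1 (b'.2.2.2 l hl)
      · exact h1.symm
  obtain ⟨P, hP⟩ := hpu
  have hH : (-1 : (ZMod m)ˣ) ∉ Subgroup.zpowers P := by
    intro h
    obtain ⟨j, hj⟩ := mem_powers_iff_mem_zpowers.2 h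
    have := congrArg (fun u : (ZMod m)ˣ => comp m l0 u) hj
    simp only [Units.val_pow_eq_pow_val, hP, map_pow, map_natCast, Units.val_neg, Units.val_one,
      map_neg, map_one] at this
    exact hF2 j this
  have hfree1 : ∀ b b' : J, ι b' * (ι b)⁻¹ ∈ Subgroup.zpowers P → b' = b := by
    intro b b' h
    obtain ⟨j, hj⟩ := mem_powers_iff_mem_zpowers.2 h
    have h1 : ι b' = P ^ j * ι b := by simp only at hj; rw [hj, inv_mul_cancel_right]
    have h2 := congrArg (fun u : (ZMod m)ˣ => comp m l0 u) h1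
    simp only [Units.val_mul, Units.val_pow_eq_pow_val, hP, map_mul, map_pow, map_natCast,
      hι0] at h2
    have h3 := hR2 _ b.2.2.1 _ b'.2.2.1 ⟨j, Or.inl h2⟩
    rw [← h3, eq_comm, b.2.1.1.mul_eq_right] at h2
    have h4 : P ^ j = 1 := Units.ext (by rw [Units.val_pow_eq_pow_val, hP, hF1 j h2]; rfl)
    exact hιinj _ _ (by rw [h1, h4, one_mul])
  have hfree2 : ∀ b b' : J, -ι b' * (ι b)⁻¹ ∉ Subgroup.zpowers P := by
    intro b b' h
    obtain ⟨j, hj⟩ := mem_powers_iff_mem_zpowers.2 h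
    have h1 : ι b' = -(P ^ j * ι b) := by
      simp only at hj; rw [hj, inv_mul_cancel_right, neg_neg]
    have h2 := congrArg (fun u : (ZMod m)ˣ => comp m l0 u) h1
    simp only [Units.val_neg, Units.val_mul, Units.val_pow_eq_pow_val, hP, map_neg, map_mul,
      map_pow, map_natCast, hι0] at h2
    have h3 := hR2 _ b.2.2.1 _ b'.2.2.1 ⟨j, Or.inr h2⟩
    rw [← h3, eq_comm, ← neg_mul, b.2.1.1.mul_eq_right, neg_eq_iff_eq_neg] at h2
    exact hF2 j h2
  have hB := isDist_B (m := m) p f hf hp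
  let A : Matrix J J ℤ := fun b' b =>
    ∑ j ∈ range f, B ((ι b' : ZMod m) * (p : ZMod m) ^ j * b.1)
  have hdet : A.det ≠ 0 := by
    rw [Ne, ← Matrix.exists_vecMul_eq_zero_iff]
    rintro ⟨v, hv, h⟩
    refine hv (funext fun b0 => ?_)
    let D : ZMod m → ℤ := fun x =>
      ∑ b', v b' * ∑ j ∈ range f, B ((ι b' : ZMod m) * (p : ZMod m) ^ j * x)
    have hD : IsDist m p D := by
      refine ⟨fun x => ?_, fun x => ?_, fun x hx => ?_, fun l hl hlm x hx => ?_⟩
      · simp only [D, mul_neg, B_neg, sum_neg_distrib]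
      · simp only [D, (hB _).frob x]
      · simp only [D, (hB _).pure x hx, mul_zero, sum_const_zero]
      · simp only [D]
        rw [sum_comm]
        exact sum_congr rfl fun b' _ => by rw [← mul_sum, (hB _).hd l hl hlm x hx]
    have hD0 : ∀ x, D x = 0 := hspan D hD ⊥ fun b => congrFun h b
    have hpush : ∀ G : (ZMod m)ˣ → ℤ, ∑ u, (∑ b' with ι b' = u, v b') * G u
        = ∑ b', v b' * G (ι b') := by
      intro G
      rw [← sum_fiberwise univ ι]
      refine sum_congr rfl fun u _ => ?_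
      rw [sum_mul]
      exact sum_congr rfl fun b' hb' => by rw [(mem_filter.1 hb').2]
    have h2 := step2' P (fun u => ∑ b' with ι b' = u, v b')
      (fourier_zero f hf P hP _ fun x => (hpush _).trans (hD0 x)) hH
      (fun u => (if u * (ι b0)⁻¹ ∈ Subgroup.zpowers P then (1 : ℤ) else 0)
        - if -u * (ι b0)⁻¹ ∈ Subgroup.zpowers P then 1 else 0)
      (fun u => by rw [neg_neg, neg_sub]) fun u => by
        simp only [← mul_neg, mul_assoc,
          Subgroup.mul_mem_cancel_left _ (Subgroup.mem_zpowers P)]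
    simp only [smul_eq_mul, hpush, hfree2, if_false, sub_zero] at h2
    rw [sum_eq_single b0 (fun b _ hb => by rw [if_neg fun h => hb (hfree1 _ _ h), mul_zero])
      (by simp), if_pos (by simp), mul_one] at h2
    exact h2
  let E2 : ZMod m → M × ((ZMod m)ˣ → ℤ) := fun x =>
    (E x, fun t => ∑ j ∈ range f, B ((t : ZMod m) * (p : ZMod m) ^ j * x))
  have hE2 : IsDist m p E2 := by
    refine ⟨fun x => Prod.ext (hE.neg x) (funext fun t => (hB t).neg x),
      fun x => Prod.ext (hE.frob x) (funext fun t => (hB t).frob x),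
      fun x hx => Prod.ext (hE.pure x hx) (funext fun t => (hB t).pure x hx),
      fun l hl hlm x hx => Prod.ext ?_ (funext fun t => ?_)⟩
    · rw [Prod.fst_sum]; exact hE.hd l hl hlm x hx
    · rw [Prod.snd_sum, Finset.sum_apply]; exact (hB t).hd l hl hlm x hx
  have hT : ∀ x, E2 x ∈ Submodule.span ℤ (Set.range fun b : J => E2 b.1) := by
    intro x
    by_cases hx : comp m l0 x = 0
    · rw [hE2.pure x (hpure x hx)]; exact Submodule.zero_mem _
    · refine go_up hE2 l0 _ (kubert hE2 ⟨P, hP⟩ l0 R hR _ fun y h1 h2 h3 => ?_) x hx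
      exact Submodule.subset_span ⟨⟨y, h1, h2, h3⟩, rfl⟩
  obtain ⟨c, hc⟩ := (Submodule.mem_span_range_iff_exists_fun ℤ).1
    (Submodule.sum_mem _ (t := s) fun i _ => hT (a i))
  have hc0 : c = 0 := by
    by_contra h
    refine hdet (Matrix.exists_mulVec_eq_zero_iff.1 ⟨c, h, funext fun b' => ?_⟩)
    have hc2 := congrFun (congrArg Prod.snd hc) (ι b')
    simp only [Prod.snd_sum, Prod.smul_snd, E2, Finset.sum_apply, Pi.smul_apply, ha (ι b'),
      smul_eq_mul] at hc2
    rw [Pi.zero_apply, ← hc2]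
    exact sum_congr rfl fun b _ => mul_comm _ _
  have hc1 := congrArg Prod.fst hc
  simp only [Prod.fst_sum, E2, hc0, Pi.zero_apply, zero_smul, sum_const_zero] at hc1
  exact hc1.symm

end Pool.Agent.Lib.MP_60ec62_ag
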